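import Mathlib

/-!
Walsh analysis on the discrete cube `I → Bool`, for functions with values in a real vector space.
-/

set_option autoImplicit false
set_option linter.unusedSectionVars false
set_option linter.unusedSimpArgs false

namespace H601R3
open Finset

/-- The sign of a Boolean. -/
noncomputable def sg (b : Bool) : ℝ := if b then 1 else -1

@[simp] lemma sg_mul_self (b : Bool) : sg b * sg b = 1 := by cases b <;> simp [sg]
@[simp] lemma abs_sg (b : Bool) : |sg b| = 1 := by cases b <;> simp [sg]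
lemma sg_not (b : Bool) : sg (!b) = - sg b := by cases b <;> simp [sg]

variable {I : Type} [Fintype I] [DecidableEq I]

/-- Walsh functions. -/
noncomputable def chi (S : Finset I) (ε : I → Bool) : ℝ := ∏ i ∈ S, sg (ε i)

@[simp] lemma chi_mul_self (S : Finset I) (ε : I → Bool) : chi S ε * chi S ε = 1 := by
  simp only [chi, ← Finset.prod_mul_distrib, sg_mul_self, Finset.prod_const_one]

@[simp] lemma chi_empty (ε : I → Bool) : chi (∅ : Finset I) ε = 1 := by simp [chi]
@[simp] lemma chi_singleton (i : I) (ε : I → Bool) : chi {i} ε = sg (ε i) := by simp [chi]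

/-- The cardinality of the cube. -/
noncomputable def cn (I : Type) [Fintype I] : ℝ := 2 ^ Fintype.card I

lemma cn_pos : 0 < cn I := by unfold cn; positivity

lemma cn_ne : cn I ≠ 0 := cn_pos.ne'

/-- The noise kernel. -/
noncomputable def ker (ρ : ℝ) (ε δ : I → Bool) : ℝ := ∏ i, (1 + ρ * (sg (ε i) * sg (δ i)))

lemma ker_eq (ρ : ℝ) (ε δ : I → Bool) :
    ker ρ ε δ = ∑ S : Finset I, ρ ^ S.card * (chi S ε * chi S δ) := by
  unfold ker
  rw [Finset.prod_one_add, Finset.powerset_univ]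
  refine Finset.sum_congr rfl fun S _ => ?_
  rw [Finset.prod_mul_distrib, Finset.prod_const, Finset.prod_mul_distrib]; rfl

lemma ker_nonneg {ρ : ℝ} (h : |ρ| ≤ 1) (ε δ : I → Bool) : 0 ≤ ker ρ ε δ := by
  refine Finset.prod_nonneg fun i _ => ?_
  have h1 := abs_le.1 h
  cases ε i <;> cases δ i <;> simp [sg] <;> linarith

lemma ker_symm (ρ : ℝ) (ε δ : I → Bool) : ker ρ ε δ = ker ρ δ ε := by
  unfold ker; refine Finset.prod_congr rfl fun i _ => ?_; ring

lemma ker_sum (ρ : ℝ) (ε : I → Bool) : ∑ δ, ker ρ ε δ = cn I := by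
  unfold ker cn
  have := Finset.prod_univ_sum (fun _ : I => (Finset.univ : Finset Bool))
    (fun i b => (1 + ρ * (sg (ε i) * sg b)))
  rw [Fintype.piFinset_univ] at this
  rw [← this]
  have h2 : ∀ i, ∑ b : Bool, (1 + ρ * (sg (ε i) * sg b)) = 2 := by
    intro i; simp [sg]; ring
  rw [Finset.prod_congr rfl fun i _ => h2 i]
  simp

lemma ker_one (ε δ : I → Bool) : ker 1 ε δ = if ε = δ then cn I else 0 := by
  unfold ker cn
  split_ifs with h
  · subst h; simp; norm_num
  · obtain ⟨i, hi⟩ : ∃ i, ε i ≠ δ i := by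
      by_contra hh; push Not at hh; exact h (funext hh)
    refine Finset.prod_eq_zero (Finset.mem_univ i) ?_
    revert hi; cases ε i <;> cases δ i <;> simp [sg]

lemma chi_orth (S T : Finset I) :
    ∑ ε : I → Bool, chi S ε * chi T ε = if S = T then cn I else 0 := by
  have h1 : ∀ ε : I → Bool, chi S ε * chi T ε =
      ∏ i, ((if i ∈ S then sg (ε i) else 1) * (if i ∈ T then sg (ε i) else 1)) := by
    intro ε
    rw [Finset.prod_mul_distrib]
    unfold chi
    congr 1 <;> simp [Finset.prod_ite_mem]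
  simp_rw [h1]
  have := Finset.prod_univ_sum (fun _ : I => (Finset.univ : Finset Bool))
    (fun i b => ((if i ∈ S then sg b else 1) * (if i ∈ T then sg b else 1)))
  rw [Fintype.piFinset_univ] at this
  rw [← this]
  split_ifs with h
  · subst h
    unfold cn
    have : ∀ i, ∑ b : Bool, ((if i ∈ S then sg b else 1) * (if i ∈ S then sg b else 1)) = 2 := by
      intro i; by_cases h : i ∈ S <;> simp [h] <;> norm_num
    rw [Finset.prod_congr rfl fun i _ => this i]
    simp
  · obtain ⟨i, hi⟩ : ∃ i, ¬ (i ∈ S ↔ i ∈ T) := by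
      by_contra hh; push Not at hh; exact h (Finset.ext hh)
    refine Finset.prod_eq_zero (Finset.mem_univ i) ?_
    by_cases h1 : i ∈ S <;> by_cases h2 : i ∈ T <;> simp [h1, h2, sg] at hi ⊢

section vec
variable {E : Type*} [AddCommGroup E] [Module ℝ E]

/-- Fourier coefficients. -/
noncomputable def hat (f : (I → Bool) → E) (S : Finset I) : E := (cn I)⁻¹ • ∑ ε, chi S ε • f ε

/-- Fourier multipliers. -/
noncomputable def mult (c : Finset I → ℝ) (f : (I → Bool) → E) (ε : I → Bool) : E :=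
  ∑ S, (c S * chi S ε) • hat f S

/-- The noise operator. -/
noncomputable def T (ρ : ℝ) (f : (I → Bool) → E) (ε : I → Bool) : E :=
  (cn I)⁻¹ • ∑ δ, ker ρ ε δ • f δ

lemma T_eq (ρ : ℝ) (f : (I → Bool) → E) : T ρ f = mult (fun S => ρ ^ S.card) f := by
  funext ε
  unfold T mult hat
  simp_rw [ker_eq, Finset.sum_smul, Finset.smul_sum, smul_smul]
  rw [Finset.sum_comm]
  refine Finset.sum_congr rfl fun S _ => Finset.sum_congr rfl fun δ _ => ?_
  congr 1; ring

lemma mult_one (f : (I → Bool) → E) : mult (fun _ => 1) f = f := by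
  have h := T_eq 1 f
  simp only [one_pow] at h
  rw [← h]
  funext ε
  unfold T
  simp_rw [ker_one]
  simp [ite_smul, smul_smul, inv_mul_cancel₀ (cn_ne (I := I))]

lemma hat_sum (g : Finset I → E) (S : Finset I) :
    hat (fun ε => ∑ U, chi U ε • g U) S = g S := by
  unfold hat
  simp_rw [Finset.smul_sum, smul_smul]
  rw [Finset.sum_comm]
  have : ∀ U, ∑ ε : I → Bool, ((cn I)⁻¹ * (chi S ε * chi U ε)) • g U =
      if S = U then g U else 0 := by
    intro U
    rw [← Finset.sum_smul, ← Finset.mul_sum, chi_orth]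
    split_ifs <;> simp [cn_ne]
  simp_rw [this]
  simp

lemma hat_mult (c : Finset I → ℝ) (f : (I → Bool) → E) (S : Finset I) :
    hat (mult c f) S = c S • hat f S := by
  have : mult c f = fun ε => ∑ U, chi U ε • (c U • hat f U) := by
    funext ε; unfold mult; refine Finset.sum_congr rfl fun U _ => ?_
    rw [smul_smul, mul_comm]
  rw [this, hat_sum]

lemma ext_hat {f g : (I → Bool) → E} (h : ∀ S, hat f S = hat g S) : f = g := by
  rw [← mult_one f, ← mult_one g]
  funext ε; unfold mult; simp_rw [h]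

lemma hat_add (f g : (I → Bool) → E) (S : Finset I) : hat (f + g) S = hat f S + hat g S := by
  unfold hat; simp [Finset.sum_add_distrib, smul_add]

lemma hat_sub (f g : (I → Bool) → E) (S : Finset I) : hat (f - g) S = hat f S - hat g S := by
  unfold hat; simp [Finset.sum_sub_distrib, smul_sub]

lemma hat_smul (r : ℝ) (f : (I → Bool) → E) (S : Finset I) : hat (r • f) S = r • hat f S := by
  unfold hat
  simp only [Pi.smul_apply, Finset.smul_sum]
  refine Finset.sum_congr rfl fun ε _ => ?_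
  simp only [smul_smul]; congr 1; ring

/-- The first level. -/
noncomputable def lev (x : I → E) (ε : I → Bool) : E := ∑ i, sg (ε i) • x i

lemma hat_lev (x : I → E) (S : Finset I) :
    hat (lev x) S = ∑ i, if S = {i} then x i else 0 := by
  have : lev x = fun ε => ∑ U, chi U ε • (∑ i, if U = {i} then x i else 0) := by
    funext ε
    unfold lev
    simp_rw [Finset.smul_sum]
    rw [Finset.sum_comm]
    refine Finset.sum_congr rfl fun i _ => ?_
    simp
  rw [this, hat_sum]

lemma hat_lev_singleton (x : I → E) (i : I) : hat (lev x) {i} = x i := by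
  rw [hat_lev]; simp

lemma hat_lev_of_ne (x : I → E) (S : Finset I) (h : S.card ≠ 1) : hat (lev x) S = 0 := by
  rw [hat_lev]
  refine Finset.sum_eq_zero fun i _ => ?_
  rw [if_neg]
  rintro rfl; simp at h

variable {F : Type*} [AddCommGroup F] [Module ℝ F]

lemma hat_map (L : E →ₗ[ℝ] F) (f : (I → Bool) → E) (S : Finset I) :
    hat (fun ε => L (f ε)) S = L (hat f S) := by
  unfold hat; simp [map_sum, map_smul]

lemma mult_map (L : E →ₗ[ℝ] F) (c : Finset I → ℝ) (f : (I → Bool) → E) (ε : I → Bool) :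
    mult c (fun ε => L (f ε)) ε = L (mult c f ε) := by
  unfold mult; simp [map_sum, map_smul, hat_map]

lemma T_map (L : E →ₗ[ℝ] F) (ρ : ℝ) (f : (I → Bool) → E) (ε : I → Bool) :
    T ρ (fun ε => L (f ε)) ε = L (T ρ f ε) := by
  unfold T; simp [map_sum, map_smul]

lemma seminorm_sum_le {𝕜 : Type*} [NormedField 𝕜] [Module 𝕜 E] (q : Seminorm 𝕜 E) {ι : Type*}
    (s : Finset ι) (f : ι → E) : q (∑ i ∈ s, f i) ≤ ∑ i ∈ s, q (f i) := by
  classical
  induction s using Finset.induction_on with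
  | empty => simp
  | insert a s ha ih =>
    rw [Finset.sum_insert ha, Finset.sum_insert ha]
    exact (map_add_le_add q _ _).trans (by linarith)

/-- Jensen for a seminorm-like functional (q is nonnegative, subadditive, homogeneous). -/
lemma T_le (q : Seminorm ℝ E) {ρ : ℝ} (h : |ρ| ≤ 1) (f : (I → Bool) → E) (ε : I → Bool) :
    q (T ρ f ε) ≤ T ρ (fun δ => q (f δ)) ε := by
  unfold T
  rw [map_smul_eq_mul, smul_eq_mul, Real.norm_of_nonneg (inv_nonneg.2 cn_pos.le)]
  refine mul_le_mul_of_nonneg_left ?_ (inv_nonneg.2 cn_pos.le)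
  refine (seminorm_sum_le q _ _).trans ?_
  refine Finset.sum_le_sum fun δ _ => ?_
  rw [map_smul_eq_mul, Real.norm_of_nonneg (ker_nonneg h _ _), smul_eq_mul]

end vec

/-- The average over the cube. -/
noncomputable def Ex (f : (I → Bool) → ℝ) : ℝ := (cn I)⁻¹ * ∑ ε, f ε

lemma Ex_eq_hat (f : (I → Bool) → ℝ) : Ex f = hat f ∅ := by
  unfold Ex hat; simp

lemma Ex_mono {f g : (I → Bool) → ℝ} (h : ∀ ε, f ε ≤ g ε) : Ex f ≤ Ex g := by
  unfold Ex
  exact mul_le_mul_of_nonneg_left (Finset.sum_le_sum fun ε _ => h ε) (inv_nonneg.2 cn_pos.le)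

lemma Ex_nonneg {f : (I → Bool) → ℝ} (h : ∀ ε, 0 ≤ f ε) : 0 ≤ Ex f := by
  unfold Ex
  exact mul_nonneg (inv_nonneg.2 cn_pos.le) (Finset.sum_nonneg fun ε _ => h ε)

lemma Ex_add (f g : (I → Bool) → ℝ) : Ex (fun ε => f ε + g ε) = Ex f + Ex g := by
  unfold Ex; rw [Finset.sum_add_distrib, mul_add]

lemma Ex_mul_left (r : ℝ) (f : (I → Bool) → ℝ) : Ex (fun ε => r * f ε) = r * Ex f := by
  unfold Ex; rw [← Finset.mul_sum]; ring

lemma Ex_const (r : ℝ) : Ex (fun _ : I → Bool => r) = r := by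
  unfold Ex
  have : (Finset.univ : Finset (I → Bool)).card = 2 ^ Fintype.card I := by
    simp
  rw [Finset.sum_const, this]
  have h := cn_ne (I := I)
  unfold cn at h ⊢
  rw [nsmul_eq_mul]; push_cast; field_simp

lemma Ex_T (ρ : ℝ) (f : (I → Bool) → ℝ) : Ex (T ρ f) = Ex f := by
  unfold Ex T
  simp only [smul_eq_mul, ← Finset.mul_sum]
  rw [Finset.sum_comm]
  have : ∀ δ, ∑ ε, ker ρ ε δ * f δ = cn I * f δ := by
    intro δ
    rw [← Finset.sum_mul]
    congr 1
    rw [← ker_sum ρ δ]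
    exact Finset.sum_congr rfl fun ε _ => ker_symm _ _ _
  simp_rw [this, ← Finset.mul_sum]
  rw [inv_mul_cancel_left₀ cn_ne]

/-- The second moment is also contracted. -/
lemma T_sq_le {ρ : ℝ} (h : |ρ| ≤ 1) (f : (I → Bool) → ℝ) (ε : I → Bool) :
    (T ρ f ε) ^ 2 ≤ T ρ (fun δ => f δ ^ 2) ε := by
  unfold T
  simp only [smul_eq_mul]
  have h1 : (∑ δ, ker ρ ε δ * f δ) ^ 2 ≤ (∑ δ, ker ρ ε δ) * ∑ δ, ker ρ ε δ * f δ ^ 2 := by
    have := Finset.sum_mul_sq_le_sq_mul_sq Finset.univ (fun δ => Real.sqrt (ker ρ ε δ))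
      (fun δ => Real.sqrt (ker ρ ε δ) * f δ)
    simp only [← mul_assoc, mul_pow, Real.mul_self_sqrt (ker_nonneg h _ _),
      Real.sq_sqrt (ker_nonneg h _ _)] at this
    exact this
  rw [ker_sum] at h1
  have hc := cn_pos (I := I)
  rw [mul_pow]
  calc (cn I)⁻¹ ^ 2 * (∑ δ, ker ρ ε δ * f δ) ^ 2
      ≤ (cn I)⁻¹ ^ 2 * (cn I * ∑ δ, ker ρ ε δ * f δ ^ 2) :=
        mul_le_mul_of_nonneg_left h1 (by positivity)
    _ = _ := by field_simp

section inner
variable {E : Type*} [NormedAddCommGroup E] [InnerProductSpace ℝ E]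

lemma parseval_sum (g : Finset I → E) :
    ∑ ε : I → Bool, ‖∑ S, chi S ε • g S‖ ^ 2 = cn I * ∑ S, ‖g S‖ ^ 2 := by
  have h1 : ∀ ε : I → Bool, ‖∑ S, chi S ε • g S‖ ^ 2 =
      ∑ S, ∑ U, (chi S ε * chi U ε) * inner ℝ (g S) (g U) := by
    intro ε
    rw [← real_inner_self_eq_norm_sq, sum_inner]
    refine Finset.sum_congr rfl fun S _ => ?_
    rw [inner_sum]
    refine Finset.sum_congr rfl fun U _ => ?_
    rw [real_inner_smul_left, real_inner_smul_right]; ring
  simp_rw [h1]
  rw [Finset.sum_comm]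
  simp_rw [fun S => Finset.sum_comm (s := (Finset.univ : Finset (I → Bool))) (t := Finset.univ)
    (f := fun ε U => (chi S ε * chi U ε) * inner ℝ (g S) (g U)), ← Finset.sum_mul, chi_orth]
  rw [Finset.mul_sum]
  refine Finset.sum_congr rfl fun S _ => ?_
  simp [real_inner_self_eq_norm_sq]

lemma parseval (f : (I → Bool) → E) : ∑ ε, ‖f ε‖ ^ 2 = cn I * ∑ S, ‖hat f S‖ ^ 2 := by
  have := parseval_sum (hat f)
  rw [← this]
  have h := mult_one f
  conv_lhs => rw [← h]
  unfold mult
  simp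

lemma mult_norm_le {c : Finset I → ℝ} (hc : ∀ S, |c S| ≤ 1) (f : (I → Bool) → E) :
    ∑ ε, ‖mult c f ε‖ ^ 2 ≤ ∑ ε, ‖f ε‖ ^ 2 := by
  rw [parseval, parseval]
  refine mul_le_mul_of_nonneg_left (Finset.sum_le_sum fun S _ => ?_) cn_pos.le
  rw [hat_mult, norm_smul, mul_pow]
  have : ‖c S‖ ^ 2 ≤ 1 := by
    rw [Real.norm_eq_abs]; exact pow_le_one₀ (abs_nonneg _) (hc S)
  nlinarith [sq_nonneg ‖hat f S‖]

end inner

end H601R3
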