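import Pool.Agent.H601R3.Kahane

/-!
Cotype two for seminorms, and its stability under amalgamation of an L1 block along a Hilbertian
subspace.
-/

set_option autoImplicit false
set_option linter.unusedSectionVars false
set_option linter.unusedSimpArgs false

namespace H601R3
open Finset

/-- Cotype two, with averages over all signs. -/
def Cot {V : Type*} [AddCommGroup V] [Module ℝ V] (N : V → ℝ) (K : ℝ) : Prop :=
  ∀ (n : ℕ) (v : Fin n → V), Real.sqrt (∑ i, N (v i) ^ 2) ≤ K * Ex fun ε => N (lev v ε)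

section prelim
variable {I : Type} [Fintype I] [DecidableEq I]

lemma Ex_sq_le (f : (I → Bool) → ℝ) : (Ex f) ^ 2 ≤ Ex fun ε => f ε ^ 2 := by
  unfold Ex
  have h := sq_sum_le_card_mul_sum_sq (s := (Finset.univ : Finset (I → Bool))) (f := f)
  have hc : ((Finset.univ : Finset (I → Bool)).card : ℝ) = cn I := by
    simp [cn]
  rw [hc] at h
  have hc' := cn_pos (I := I)
  rw [mul_pow]
  calc (cn I)⁻¹ ^ 2 * (∑ ε, f ε) ^ 2 ≤ (cn I)⁻¹ ^ 2 * (cn I * ∑ ε, f ε ^ 2) :=
        mul_le_mul_of_nonneg_left h (by positivity)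
    _ = _ := by field_simp

lemma Ex_le_sqrt (f : (I → Bool) → ℝ) : Ex f ≤ Real.sqrt (Ex fun ε => f ε ^ 2) :=
  Real.le_sqrt_of_sq_le (Ex_sq_le f)

lemma sqrt_Ex_add (f : (I → Bool) → ℝ) {δ : ℝ} (hδ : 0 ≤ δ) :
    Real.sqrt (Ex fun ε => (f ε + δ) ^ 2) ≤ Real.sqrt (Ex fun ε => f ε ^ 2) + δ := by
  have h1 : (Ex fun ε => (f ε + δ) ^ 2) = (Ex fun ε => f ε ^ 2) + 2 * δ * Ex f + δ ^ 2 := by
    have : (fun ε => (f ε + δ) ^ 2) = fun ε => (f ε ^ 2 + (2 * δ) * f ε) + δ ^ 2 := by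
      funext ε; ring
    rw [this, Ex_add, Ex_add, Ex_mul_left, Ex_const]
  have h2 := Ex_le_sqrt f
  have h3 : 0 ≤ Ex fun ε => f ε ^ 2 := Ex_nonneg fun ε => sq_nonneg _
  rw [h1, Real.sqrt_le_left (by positivity)]
  nlinarith [Real.sq_sqrt h3]

lemma sqrt_sum_add {n : ℕ} (x y : Fin n → ℝ) :
    Real.sqrt (∑ i, (x i + y i) ^ 2) ≤ Real.sqrt (∑ i, x i ^ 2) + Real.sqrt (∑ i, y i ^ 2) := by
  have := norm_add_le (WithLp.toLp 2 x : EuclideanSpace ℝ (Fin n)) (WithLp.toLp 2 y)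
  simpa [EuclideanSpace.norm_eq] using this

lemma sqrt_sum_mono {n : ℕ} {x y : Fin n → ℝ} (hx : ∀ i, 0 ≤ x i) (h : ∀ i, x i ≤ y i) :
    Real.sqrt (∑ i, x i ^ 2) ≤ Real.sqrt (∑ i, y i ^ 2) := by
  refine Real.sqrt_le_sqrt (Finset.sum_le_sum fun i _ => ?_)
  exact pow_le_pow_left₀ (hx i) (h i) 2

section
variable {E : Type*} [NormedAddCommGroup E] [InnerProductSpace ℝ E]

lemma Ex_norm_lev (x : I → E) : Ex (fun ε => ‖lev x ε‖ ^ 2) = ∑ i, ‖x i‖ ^ 2 := by
  unfold Ex
  rw [parseval, inv_mul_cancel_left₀ cn_ne]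
  have h1 : ∀ S : Finset I, ‖hat (lev x) S‖ ^ 2 = ∑ i, if S = {i} then ‖x i‖ ^ 2 else 0 := by
    intro S
    by_cases h : ∃ i, S = {i}
    · obtain ⟨i, rfl⟩ := h
      rw [hat_lev_singleton]; simp
    · rw [hat_lev]
      push Not at h
      simp [h]
  simp_rw [h1]
  rw [Finset.sum_comm]
  simp

end
end prelim

section
variable {E : Type*} [NormedAddCommGroup E] [InnerProductSpace ℝ E]

lemma hilbert_cot : Cot (fun x : E => ‖x‖) 2 := by
  intro n x
  rw [← Ex_norm_lev]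
  exact kahane_sqrt (normSeminorm ℝ E) x
end

section quot
variable {V A : Type*} [AddCommGroup V] [Module ℂ V] [AddCommGroup A] [Module ℂ A]

lemma bdd (N : Seminorm ℂ V) (L : A →ₗ[ℂ] V) (v : V) :
    BddBelow (Set.range fun a => N (v + L a)) := ⟨0, by rintro _ ⟨a, rfl⟩; exact apply_nonneg N _⟩

/-- The quotient seminorm. -/
noncomputable def quotSem (N : Seminorm ℂ V) (L : A →ₗ[ℂ] V) : Seminorm ℂ V :=
  Seminorm.ofSMulLE (fun v => ⨅ a, N (v + L a))
    (le_antisymm (by simpa using ciInf_le (bdd N L 0) 0) (Real.iInf_nonneg fun a => apply_nonneg N _))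
    (by
      intro x y
      refine le_of_forall_pos_le_add fun δ hδ => ?_
      obtain ⟨a, ha⟩ := exists_lt_of_ciInf_lt (lt_add_of_pos_right (⨅ a, N (x + L a)) (half_pos hδ))
      obtain ⟨b, hb⟩ := exists_lt_of_ciInf_lt (lt_add_of_pos_right (⨅ a, N (y + L a)) (half_pos hδ))
      have h1 : ⨅ a, N (x + y + L a) ≤ N (x + y + L (a + b)) := ciInf_le (bdd N L _) _
      have h2 : N (x + y + L (a + b)) ≤ N (x + L a) + N (y + L b) := by
        have : x + y + L (a + b) = (x + L a) + (y + L b) := by rw [map_add]; abel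
        rw [this]; exact map_add_le_add N _ _
      linarith)
    (by
      intro r x
      rw [Real.mul_iInf_of_nonneg (norm_nonneg r)]
      refine le_ciInf fun a => ?_
      refine (ciInf_le (bdd N L _) (r • a)).trans (le_of_eq ?_)
      rw [map_smul, ← smul_add, map_smul_eq_mul])

lemma quotSem_apply (N : Seminorm ℂ V) (L : A →ₗ[ℂ] V) (v : V) :
    quotSem N L v = ⨅ a, N (v + L a) := rfl

lemma quotSem_le (N : Seminorm ℂ V) (L : A →ₗ[ℂ] V) (v : V) (a : A) :
    quotSem N L v ≤ N (v + L a) := ciInf_le (bdd N L v) a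

lemma quotSem_le_self (N : Seminorm ℂ V) (L : A →ₗ[ℂ] V) (v : V) :
    quotSem N L v ≤ N v := by simpa using quotSem_le N L v 0

lemma exists_quotSem (N : Seminorm ℂ V) (L : A →ₗ[ℂ] V) (v : V) {δ : ℝ} (hδ : 0 < δ) :
    ∃ a, N (v + L a) ≤ quotSem N L v + δ := by
  obtain ⟨a, ha⟩ := exists_lt_of_ciInf_lt (lt_add_of_pos_right (⨅ a, N (v + L a)) hδ)
  exact ⟨a, ha.le⟩

lemma quotSem_range (N : Seminorm ℂ V) (L : A →ₗ[ℂ] V) (a : A) :
    quotSem N L (L a) = 0 := by
  refine le_antisymm ?_ (apply_nonneg _ _)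
  have := quotSem_le N L (L a) (-a)
  simpa using this

lemma le_quotSem (N : Seminorm ℂ V) (L : A →ₗ[ℂ] V) (v : V) {r : ℝ}
    (h : ∀ a, r ≤ N (v + L a)) : r ≤ quotSem N L v := le_ciInf h

end quot

section hilbert
variable {I : Type} [Fintype I] [DecidableEq I]
variable {B A : Type*} [AddCommGroup B] [Module ℂ B] [NormedAddCommGroup A] [InnerProductSpace ℂ A]

lemma lev_map {E F : Type*} [AddCommGroup E] [Module ℝ E] [AddCommGroup F] [Module ℝ F]
    (L : E →ₗ[ℝ] F) (x : I → E) (ε : I → Bool) : L (lev x ε) = lev (fun i => L (x i)) ε := by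
  unfold lev; simp [map_sum]

lemma lev_sub' {E : Type*} [AddCommGroup E] [Module ℝ E]
    (x y : I → E) (ε : I → Bool) : lev (fun i => x i - y i) ε = lev x ε - lev y ε := by
  unfold lev; simp [smul_sub, Finset.sum_sub_distrib]

lemma lev_add' {E : Type*} [AddCommGroup E] [Module ℝ E]
    (x y : I → E) (ε : I → Bool) : lev (fun i => x i + y i) ε = lev x ε + lev y ε := by
  unfold lev; simp [smul_add, Finset.sum_add_distrib]

/-- The multiplier used below. -/
noncomputable def th (S : Finset I) : ℝ := (1/2) ^ S.card - 1/2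

lemma th_one {S : Finset I} (h : S.card = 1) : th S = 0 := by simp [th, h]

lemma th_sq {S : Finset I} (h : S.card ≠ 1) : 1/16 ≤ th S ^ 2 := by
  unfold th
  rcases Nat.eq_zero_or_pos S.card with h0 | h0
  · rw [h0]; norm_num
  · have h2 : 2 ≤ S.card := by omega
    have h3 : (1/2 : ℝ) ^ S.card ≤ (1/2) ^ 2 := pow_le_pow_of_le_one (by norm_num) (by norm_num) h2
    have h4 : 0 ≤ (1/2 : ℝ) ^ S.card := by positivity
    nlinarith

lemma mult_th {E : Type*} [AddCommGroup E] [Module ℝ E] (f : (I → Bool) → E) :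
    mult th f = T (1/2) f - (1/2 : ℝ) • f := by
  refine ext_hat fun S => ?_
  rw [hat_mult, hat_sub, hat_smul, T_eq, hat_mult, ← sub_smul]; rfl

lemma mult_th_le (NB : Seminorm ℝ B) (f : (I → Bool) → B) :
    Ex (fun ε => NB (mult th f ε) ^ 2) ≤ (5/2) * Ex fun ε => NB (f ε) ^ 2 := by
  have hρ : |(1/2 : ℝ)| ≤ 1 := by rw [abs_of_pos] <;> norm_num
  have h1 : ∀ ε, NB (mult th f ε) ^ 2 ≤
      2 * T (1/2) (fun δ => NB (f δ) ^ 2) ε + (1/2) * NB (f ε) ^ 2 := by
    intro ε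
    have h2 : NB (mult th f ε) ≤ T (1/2) (fun δ => NB (f δ)) ε + (1/2) * NB (f ε) := by
      rw [mult_th, Pi.sub_apply, Pi.smul_apply]
      refine (map_sub_le_add NB _ _).trans ?_
      rw [map_smul_eq_mul, Real.norm_of_nonneg (by norm_num)]
      have := T_le NB hρ f ε
      linarith
    have h3 := T_sq_le hρ (fun δ => NB (f δ)) ε
    have h4 : 0 ≤ NB (mult th f ε) := apply_nonneg _ _
    have h5 : NB (mult th f ε) ^ 2 ≤ (T (1/2) (fun δ => NB (f δ)) ε + (1/2) * NB (f ε)) ^ 2 :=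
      pow_le_pow_left₀ h4 h2 2
    nlinarith [sq_nonneg (T (1/2) (fun δ => NB (f δ)) ε - (1/2) * NB (f ε))]
  refine (Ex_mono h1).trans ?_
  rw [Ex_add, Ex_mul_left, Ex_mul_left, Ex_T]
  linarith

omit [AddCommGroup B] [Module ℂ B] in
lemma parseval_c (f : (I → Bool) → A) : ∑ ε, ‖f ε‖ ^ 2 = cn I * ∑ S, ‖hat f S‖ ^ 2 := by
  letI : InnerProductSpace ℝ A := InnerProductSpace.complexToReal
  exact parseval f

theorem hilbert_lemma (NB : Seminorm ℂ B) (J : A →ₗ[ℂ] B) (C : ℝ) (hC : 0 ≤ C)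
    (hJ1 : ∀ a, C / 2 * ‖a‖ ≤ NB (J a)) (hJ2 : ∀ a, NB (J a) ≤ C * ‖a‖)
    (y : I → B) (a : (I → Bool) → A) :
    Ex (fun ε => NB (J (a ε - lev (fun i => hat a {i}) ε)) ^ 2) ≤
      160 * Ex fun ε => NB (lev y ε - J (a ε)) ^ 2 := by
  set α : I → A := fun i => hat a {i} with hα
  set G : (I → Bool) → A := a - lev α with hG
  have hG1 : ∀ S : Finset I, S.card = 1 → hat G S = 0 := by
    intro S hS
    obtain ⟨i, rfl⟩ := Finset.card_eq_one.1 hS
    rw [hG, hat_sub, hat_lev_singleton]; simp [hα]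
  have hkey : mult th (fun ε => lev y ε - J (a ε)) = fun ε => - J (mult th G ε) := by
    refine ext_hat fun S => ?_
    rw [hat_mult]
    have h1 : hat (fun ε => - J (mult th G ε)) S = - J (hat (mult th G) S) := by
      have := hat_map ((-J).restrictScalars ℝ) (mult th G) S
      simpa using this
    rw [h1, hat_mult]
    by_cases hS : S.card = 1
    · rw [th_one hS]; simp
    · have h2 : (fun ε => lev y ε - J (a ε)) = lev y - fun ε => (J.restrictScalars ℝ) (a ε) := by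
        funext ε; simp
      have h3 : hat a S = hat G S := by
        rw [hG, hat_sub, hat_lev_of_ne α S hS, sub_zero]
      rw [h2, hat_sub, hat_lev_of_ne y S hS, hat_map, h3]
      simp
  have h5 := mult_th_le (NB.restrictScalars ℝ) (fun ε => lev y ε - J (a ε))
  rw [hkey] at h5
  have h6 : Ex (fun ε => (NB.restrictScalars ℝ) (- J (mult th G ε)) ^ 2) =
      Ex (fun ε => NB (J (mult th G ε)) ^ 2) := by
    congr 1; funext ε
    show NB (- J (mult th G ε)) ^ 2 = _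
    rw [map_neg_eq_map]
  rw [h6] at h5
  have h7 : (C / 2) ^ 2 * Ex (fun ε => ‖mult th G ε‖ ^ 2) ≤ Ex (fun ε => NB (J (mult th G ε)) ^ 2) := by
    rw [← Ex_mul_left]
    refine Ex_mono fun ε => ?_
    rw [← mul_pow]
    exact pow_le_pow_left₀ (by positivity) (hJ1 _) 2
  have h8 : (1/16) * Ex (fun ε => ‖G ε‖ ^ 2) ≤ Ex (fun ε => ‖mult th G ε‖ ^ 2) := by
    unfold Ex
    rw [parseval_c, parseval_c, inv_mul_cancel_left₀ cn_ne, inv_mul_cancel_left₀ cn_ne, Finset.mul_sum]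
    refine Finset.sum_le_sum fun S _ => ?_
    rw [hat_mult, norm_smul, mul_pow, Real.norm_eq_abs, sq_abs]
    by_cases hS : S.card = 1
    · rw [hG1 S hS]; simp
    · exact mul_le_mul_of_nonneg_right (th_sq hS) (by positivity)
  have h9 : Ex (fun ε => NB (J (a ε - lev α ε)) ^ 2) ≤ C ^ 2 * Ex (fun ε => ‖G ε‖ ^ 2) := by
    rw [← Ex_mul_left]
    refine Ex_mono fun ε => ?_
    rw [← mul_pow]
    exact pow_le_pow_left₀ (apply_nonneg _ _) (hJ2 _) 2
  have h10 : Ex (fun ε => (NB.restrictScalars ℝ) (lev y ε - J (a ε)) ^ 2) =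
    Ex (fun ε => NB (lev y ε - J (a ε)) ^ 2) := rfl
  rw [h10] at h5
  have hC2 : 0 ≤ C ^ 2 := by positivity
  nlinarith [mul_le_mul_of_nonneg_left h8 hC2]

end hilbert

section step
variable {V B A : Type*} [AddCommGroup V] [Module ℂ V] [AddCommGroup B] [Module ℂ B]
  [NormedAddCommGroup A] [InnerProductSpace ℂ A]

theorem step_cot (N : Seminorm ℂ V) (NB : Seminorm ℂ B) (β : V →ₗ[ℂ] B) (ι : B →ₗ[ℂ] V)
    (hβι : ∀ b, β (ι b) = b) (hsplit : ∀ v, N v = N (v - ι (β v)) + NB (β v))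
    (w : A →ₗ[ℂ] V) (hβw : ∀ a, β (w a) = 0) (hw : ∀ a, N (w a) ≤ ‖a‖)
    (J : A →ₗ[ℂ] B) (hJ1 : ∀ a, 500 * ‖a‖ ≤ NB (J a)) (hJ2 : ∀ a, NB (J a) ≤ 1000 * ‖a‖)
    (hB : Cot NB 2) (hN : Cot N 1000) : Cot (quotSem N (w - ι ∘ₗ J)) 1000 := by
  intro m v
  set L := w - ι ∘ₗ J with hL
  set N' := quotSem N L with hN'
  set f := lev v with hf
  set qB := quotSem NB (-J) with hqB
  have hLa : ∀ a, L a = w a - ι (J a) := fun a => rfl
  have hN1 : ∀ (x : V) (a : A), N (x + L a) = N (x - ι (β x) + w a) + NB (β x - J a) := by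
    intro x a
    rw [hsplit, hLa]
    have h1 : β (x + (w a - ι (J a))) = β x - J a := by
      rw [map_add, map_sub, hβw, hβι]; abel
    rw [h1]
    congr 2
    rw [map_sub]; abel
  refine le_of_forall_pos_le_add fun δ' hδ' => ?_
  obtain ⟨δ, hδ, hδδ⟩ : ∃ δ : ℝ, 0 < δ ∧ 1056 * δ ≤ δ' := ⟨δ' / 1056, by positivity, by linarith⟩
  choose as has using fun ε => exists_quotSem N L (f ε) hδ
  choose ap hap using fun ε => exists_quotSem NB (-J) (β (f ε)) hδ
  set e : (Fin m → Bool) → V := fun ε => f ε - ι (β (f ε)) with he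
  set es : (Fin m → Bool) → ℝ := fun ε => N (e ε + w (as ε)) with hes
  set bs : (Fin m → Bool) → ℝ := fun ε => NB (β (f ε) - J (as ε)) with hbs
  set ep : (Fin m → Bool) → ℝ := fun ε => N (e ε + w (ap ε)) with hep
  set bp : (Fin m → Bool) → ℝ := fun ε => NB (β (f ε) - J (ap ε)) with hbp
  have h1 : ∀ ε, es ε + bs ε ≤ N' (f ε) + δ := by
    intro ε; have := has ε; rw [hN1] at this; exact this
  have hqle : ∀ ε, qB (β (f ε)) ≤ bs ε := by
    intro ε
    have := quotSem_le NB (-J) (β (f ε)) (as ε)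
    rw [LinearMap.neg_apply, ← sub_eq_add_neg] at this
    exact this
  have h2 : ∀ ε, bp ε ≤ qB (β (f ε)) + δ := by
    intro ε
    have := hap ε
    rw [LinearMap.neg_apply, ← sub_eq_add_neg] at this
    exact this
  have h3 : ∀ ε, ep ε ≤ es ε + (1/500) * (2 * bs ε + δ) := by
    intro ε
    have i1 : ep ε ≤ es ε + N (w (ap ε - as ε)) := by
      have : e ε + w (ap ε) = (e ε + w (as ε)) + w (ap ε - as ε) := by rw [map_sub]; abel
      simp only [hep, hes]
      rw [this]; exact map_add_le_add N _ _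
    have i2 := hw (ap ε - as ε)
    have i3 := hJ1 (ap ε - as ε)
    have i4 : NB (J (ap ε - as ε)) ≤ bs ε + bp ε := by
      have : J (ap ε - as ε) = (β (f ε) - J (as ε)) - (β (f ε) - J (ap ε)) := by rw [map_sub]; abel
      rw [this]; exact map_sub_le_add NB _ _
    have i5 := h2 ε
    have i6 := hqle ε
    linarith
  set y : Fin m → B := fun i => β (v i) with hy
  have hyf : ∀ ε, β (f ε) = lev y ε := fun ε => lev_map (β.restrictScalars ℝ) v ε
  set α : Fin m → A := fun i => hat ap {i} with hα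
  set JG : (Fin m → Bool) → ℝ := fun ε => NB (J (ap ε - lev α ε)) with hJG
  have hHL := hilbert_lemma NB J 1000 (by norm_num) (fun a => by have := hJ1 a; linarith) hJ2 y ap
  have h4 : Ex JG ≤ 13 * Real.sqrt (Ex fun ε => bp ε ^ 2) := by
    refine (Ex_le_sqrt JG).trans ?_
    have hb : (Ex fun ε => bp ε ^ 2) = Ex fun ε => NB (lev y ε - J (ap ε)) ^ 2 := by
      simp only [hbp, hyf]
    rw [hb]
    have h0 : 0 ≤ Ex fun ε => NB (lev y ε - J (ap ε)) ^ 2 := Ex_nonneg fun ε => sq_nonneg _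
    rw [Real.sqrt_le_left (by positivity), mul_pow, Real.sq_sqrt h0]
    refine hHL.trans ?_
    nlinarith
  have h5 : Real.sqrt (Ex fun ε => bp ε ^ 2) ≤ 2 * Ex bs + δ := by
    have j1 : Real.sqrt (Ex fun ε => bp ε ^ 2) ≤ Real.sqrt (Ex fun ε => (qB (β (f ε)) + δ) ^ 2) := by
      refine Real.sqrt_le_sqrt (Ex_mono fun ε => ?_)
      exact pow_le_pow_left₀ (apply_nonneg _ _) (h2 ε) 2
    have j2 := sqrt_Ex_add (fun ε => qB (β (f ε))) hδ.le
    have j3 : Real.sqrt (Ex fun ε => qB (β (f ε)) ^ 2) ≤ 2 * Ex fun ε => qB (β (f ε)) := by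
      have := kahane_sqrt (qB.restrictScalars ℝ) y
      simp only [hyf]
      exact this
    have j4 : (Ex fun ε => qB (β (f ε))) ≤ Ex bs := Ex_mono hqle
    linarith
  have h6 : ∀ i, N' (v i) ≤ N (v i - ι (y i) + w (α i)) + NB (y i - J (α i)) := by
    intro i
    have := quotSem_le N L (v i) (α i)
    rw [hN1] at this
    exact this
  have h7 : Real.sqrt (∑ i, N' (v i) ^ 2) ≤
      Real.sqrt (∑ i, N (v i - ι (y i) + w (α i)) ^ 2) + Real.sqrt (∑ i, NB (y i - J (α i)) ^ 2) :=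
    (sqrt_sum_mono (fun i => apply_nonneg _ _) h6).trans (sqrt_sum_add _ _)
  have hG : ∀ ε, ‖ap ε - lev α ε‖ ≤ (1/500) * JG ε := by
    intro ε; have := hJ1 (ap ε - lev α ε); simp only [hJG]; linarith
  have h8 : Real.sqrt (∑ i, N (v i - ι (y i) + w (α i)) ^ 2) ≤
      1000 * (Ex ep + (1/500) * Ex JG) := by
    refine (hN m _).trans ?_
    have k0 : Ex ep + (1/500) * Ex JG = Ex fun ε => ep ε + (1/500) * JG ε := by
      rw [Ex_add, Ex_mul_left]
    rw [k0]
    refine mul_le_mul_of_nonneg_left (Ex_mono fun ε => ?_) (by norm_num)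
    have k1 : lev (fun i => v i - ι (y i) + w (α i)) ε = (e ε + w (ap ε)) - w (ap ε - lev α ε) := by
      rw [lev_add', lev_sub']
      have k2 : lev (fun i => ι (y i)) ε = ι (β (f ε)) := by
        rw [hyf]; exact (lev_map (ι.restrictScalars ℝ) y ε).symm
      have k3 : lev (fun i => w (α i)) ε = w (lev α ε) := (lev_map (w.restrictScalars ℝ) α ε).symm
      rw [k2, k3, map_sub]
      simp only [he, hf]; abel
    rw [k1]
    refine (map_sub_le_add N _ _).trans ?_
    have := hw (ap ε - lev α ε)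
    have := hG ε
    simp only [hep]
    linarith
  have h9 : Real.sqrt (∑ i, NB (y i - J (α i)) ^ 2) ≤ 2 * (Ex bp + Ex JG) := by
    refine (hB m _).trans ?_
    rw [← Ex_add]
    refine mul_le_mul_of_nonneg_left (Ex_mono fun ε => ?_) (by norm_num)
    have k1 : lev (fun i => y i - J (α i)) ε = (β (f ε) - J (ap ε)) + J (ap ε - lev α ε) := by
      rw [lev_sub', hyf]
      have k3 : lev (fun i => J (α i)) ε = J (lev α ε) := (lev_map (J.restrictScalars ℝ) α ε).symm
      rw [k3, map_sub]; abel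
    rw [k1]
    exact map_add_le_add NB _ _
  have m1 : Ex es + Ex bs ≤ (Ex fun ε => N' (f ε)) + δ := by
    have := Ex_mono h1
    rw [Ex_add, Ex_add, Ex_const] at this
    exact this
  have m2 : Ex ep ≤ Ex es + (1/500) * (2 * Ex bs + δ) := by
    have := Ex_mono h3
    rw [Ex_add, Ex_mul_left, Ex_add, Ex_mul_left, Ex_const] at this
    exact this
  have m3 : Ex bp ≤ Ex bs + δ := by
    have : ∀ ε, bp ε ≤ bs ε + δ := fun ε => (h2 ε).trans (by have := hqle ε; linarith)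
    have := Ex_mono this
    rw [Ex_add, Ex_const] at this
    exact this
  have m4 : 0 ≤ Ex bs := Ex_nonneg fun ε => apply_nonneg _ _
  have m5 : 0 ≤ Ex es := Ex_nonneg fun ε => apply_nonneg _ _
  show Real.sqrt (∑ i, N' (v i) ^ 2) ≤ 1000 * (Ex fun ε => N' (f ε)) + δ'
  nlinarith

end step

end H601R3
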