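import Pool.Agent.H601R3.Summing

/-!
An approximable operator which is not a finite sum of products of approximable operators.
-/

set_option autoImplicit false
set_option linter.unusedSectionVars false
set_option linter.unusedSimpArgs false

namespace H601R3
open Finset

section linalg
variable {H : Type*} [NormedAddCommGroup H] [InnerProductSpace ℂ H]

lemma orth_norm {m : ℕ} {g : Fin m → H} (hg : Orthonormal ℂ g) (a : Fin m → ℂ) :
    ‖∑ i, a i • g i‖ ^ 2 = ∑ i, ‖a i‖ ^ 2 := by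
  have h := hg.inner_sum a a Finset.univ
  have h1 : (inner ℂ (∑ i, a i • g i) (∑ i, a i • g i) : ℂ) = ((‖∑ i, a i • g i‖ ^ 2 : ℝ) : ℂ) := by
    rw [inner_self_eq_norm_sq_to_K]; push_cast; rfl
  rw [h1] at h
  have h2 : ∑ i, (starRingEnd ℂ) (a i) * a i = ((∑ i, ‖a i‖ ^ 2 : ℝ) : ℂ) := by
    push_cast
    exact Finset.sum_congr rfl fun i _ => Complex.conj_mul' _
  rw [h2] at h
  exact_mod_cast h

lemma exists_sub [FiniteDimensional ℂ H] (n : ℕ) (hn : Module.finrank ℂ H = n) (β : H → ℝ)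
    (hβ : ∀ (c : ℂ) (x : H), β (c • x) = ‖c‖ * β x) (D τ : ℝ) (hτ : 0 < τ)
    (hD : ∀ (m : ℕ) (h : Fin m → H), Orthonormal ℂ h → ∑ i, β (h i) ^ 2 ≤ D)
    (hDn : 2 * D ≤ n * τ ^ 2) :
    ∃ (m : ℕ) (g : Fin m → H), Orthonormal ℂ g ∧ n ≤ 2 * m ∧
      ∀ a : Fin m → ℂ, β (∑ i, a i • g i) ≤ τ * ‖∑ i, a i • g i‖ := by
  classical
  set Q : ℕ → Prop := fun m => ∃ h : Fin m → H, Orthonormal ℂ h ∧ ∀ i, τ ≤ β (h i) with hQ
  have hb : ∀ m, Q m → 2 * m ≤ n := by
    rintro m ⟨h, ho, ht⟩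
    have h1 := hD m h ho
    have h2 : (m : ℝ) * τ ^ 2 ≤ ∑ i, β (h i) ^ 2 := by
      calc (m : ℝ) * τ ^ 2 = ∑ _i : Fin m, τ ^ 2 := by simp
        _ ≤ _ := Finset.sum_le_sum fun i _ => pow_le_pow_left₀ hτ.le (ht i) 2
    have h3 : (2 * m : ℝ) * τ ^ 2 ≤ n * τ ^ 2 := by linarith
    have h4 : (2 * m : ℝ) ≤ n := le_of_mul_le_mul_right h3 (by positivity)
    exact_mod_cast h4
  have h0 : Q 0 := ⟨fun i => i.elim0, ⟨fun i => i.elim0, fun i => i.elim0⟩, fun i => i.elim0⟩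
  obtain ⟨m, hm, hm'⟩ : ∃ m, Q m ∧ ¬ Q (m + 1) := by
    by_contra hh
    push Not at hh
    have : ∀ m, Q m := by
      intro m
      induction m with
      | zero => exact h0
      | succ m ih => exact hh m ih
    have h1 := hb (n + 1) (this _)
    omega
  obtain ⟨h, ho, ht⟩ := hm
  have hmn := hb m ⟨h, ho, ht⟩
  set S : Submodule ℂ H := Submodule.span ℂ (Set.range h) with hS
  have hfS : Module.finrank ℂ S = m := by
    rw [hS, finrank_span_eq_card ho.linearIndependent]; simp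
  have hfW : Module.finrank ℂ Sᗮ = n - m := by
    have := Submodule.finrank_add_finrank_orthogonal S
    omega
  set b := stdOrthonormalBasis ℂ Sᗮ with hb'
  refine ⟨Module.finrank ℂ Sᗮ, fun i => (b i : H), ?_, by omega, fun a => ?_⟩
  · exact b.orthonormal.comp_linearIsometry Sᗮ.subtypeₗᵢ
  · set w : H := ∑ i, a i • (b i : H) with hw
    have hwS : w ∈ Sᗮ := Submodule.sum_mem _ fun i _ => Submodule.smul_mem _ _ (b i).2
    rcases eq_or_ne w 0 with h0 | h0
    · rw [h0]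
      have := hβ 0 0
      simp only [smul_zero, norm_zero, zero_mul] at this
      rw [this, norm_zero, mul_zero]
    · have hwn : 0 < ‖w‖ := norm_pos_iff.2 h0
      by_contra hcon
      push Not at hcon
      apply hm'
      set w' : H := ((‖w‖⁻¹ : ℝ) : ℂ) • w with hw'
      have hw'S : w' ∈ Sᗮ := Submodule.smul_mem _ _ hwS
      have hw'n : ‖w'‖ = 1 := by
        rw [hw', norm_smul, Complex.norm_real, Real.norm_of_nonneg (by positivity)]
        field_simp
      have hbw : τ ≤ β w' := by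
        rw [hw', hβ, Complex.norm_real, Real.norm_of_nonneg (by positivity)]
        rw [inv_mul_eq_div, le_div_iff₀ hwn]
        exact hcon.le
      have hin : ∀ i, inner ℂ (h i) w' = 0 := fun i =>
        (Submodule.mem_orthogonal S w').1 hw'S _ (Submodule.subset_span ⟨i, rfl⟩)
      have hin' : ∀ i, inner ℂ w' (h i) = 0 := fun i => inner_eq_zero_symm.1 (hin i)
      refine ⟨Fin.cons w' h, ?_, ?_⟩
      · rw [orthonormal_iff_ite]
        have hoi := orthonormal_iff_ite.1 ho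
        intro i j
        refine Fin.cases ?_ (fun i => ?_) i
        · refine Fin.cases ?_ (fun j => ?_) j
          · simp [inner_self_eq_norm_sq_to_K, hw'n]
          · simp only [Fin.cons_zero, Fin.cons_succ, hin']
            rw [if_neg (Fin.succ_ne_zero j).symm]
        · refine Fin.cases ?_ (fun j => ?_) j
          · simp only [Fin.cons_zero, Fin.cons_succ, hin]
            rw [if_neg (Fin.succ_ne_zero i)]
          · simp only [Fin.cons_succ, hoi, Fin.succ_inj]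
      · intro i
        refine Fin.cases ?_ (fun i => ?_) i
        · exact hbw
        · exact ht i

end linalg

section constr
variable {P : Type} [NormedAddCommGroup P] [NormedSpace ℂ P]

lemma sum_emb {L : (Jx →₀ ℂ) →ₗ[ℂ] P} (hL : ∀ x, ‖L x‖ ^ 2 = ∑ j ∈ x.support, ‖x j‖ ^ 2)
    {n : ℕ} (f : Fin n → Jx) (hf : Function.Injective f) (c : Fin n → ℂ) :
    ‖∑ i, c i • L (Finsupp.single (f i) 1)‖ ^ 2 = ∑ i, ‖c i‖ ^ 2 := by
  classical
  set x : Jx →₀ ℂ := ∑ i, Finsupp.single (f i) (c i) with hx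
  have h1 : ∑ i, c i • L (Finsupp.single (f i) 1) = L x := by
    rw [hx, map_sum]
    refine Finset.sum_congr rfl fun i _ => ?_
    rw [← map_smul]; simp
  have h2 : ∀ i, x (f i) = c i := by
    intro i
    rw [hx, Finsupp.finsetSum_apply, Finset.sum_eq_single i]
    · simp
    · intro j _ hj
      exact Finsupp.single_eq_of_ne (fun h => hj (hf h).symm)
    · intro h; exact absurd (mem_univ i) h
  have h3 : x.support ⊆ Finset.univ.image f := by
    intro j hj
    by_contra hh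
    rw [Finsupp.mem_support_iff] at hj
    apply hj
    rw [hx, Finsupp.finsetSum_apply]
    refine Finset.sum_eq_zero fun i _ => ?_
    refine Finsupp.single_eq_of_ne ?_
    rintro rfl
    exact hh (Finset.mem_image_of_mem f (mem_univ i))
  rw [h1, hL]
  have h4 : ∑ j ∈ x.support, ‖x j‖ ^ 2 = ∑ j ∈ Finset.univ.image f, ‖x j‖ ^ 2 := by
    refine Finset.sum_subset h3 fun j _ hj => ?_
    rw [Finsupp.notMem_support_iff.1 hj]; simp
  rw [h4, Finset.sum_image fun i _ j _ h => hf h]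
  exact Finset.sum_congr rfl fun i _ => by rw [h2]

lemma exists_q {L : (Jx →₀ ℂ) →ₗ[ℂ] P} (hL : ∀ x, ‖L x‖ ^ 2 = ∑ j ∈ x.support, ‖x j‖ ^ 2) :
    ∃ q : Jx → (P →L[ℂ] ℂ), (∀ j, ‖q j‖ ≤ 1) ∧
      ∀ i x, q i (L x) = x i := by
  classical
  have hinj : Function.Injective L := by
    rw [← LinearMap.ker_eq_bot, LinearMap.ker_eq_bot']
    intro x hx
    have h := hL x
    rw [hx, norm_zero] at h
    have h1 : ∑ j ∈ x.support, ‖x j‖ ^ 2 = 0 := by rw [← h]; norm_num
    rw [Finset.sum_eq_zero_iff_of_nonneg fun j _ => sq_nonneg _] at h1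
    ext j
    by_contra hj
    have h2 := h1 j (Finsupp.mem_support_iff.2 hj)
    exact hj (by simpa using h2)
  have key : ∀ j, ∃ g : P →L[ℂ] ℂ, ‖g‖ ≤ 1 ∧ ∀ x, g (L x) = x j := by
    intro j
    set e := LinearEquiv.ofInjective L hinj with he
    have hex : ∀ x, e.symm ⟨L x, ⟨x, rfl⟩⟩ = x := by
      intro x
      rw [LinearEquiv.symm_apply_eq]
      rfl
    set f0 : LinearMap.range L →ₗ[ℂ] ℂ := (Finsupp.lapply j) ∘ₗ e.symm.toLinearMap with hf0
    have hf : ∀ y, ‖f0 y‖ ≤ 1 * ‖y‖ := by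
      rintro ⟨_, x, rfl⟩
      have h1 : f0 ⟨L x, ⟨x, rfl⟩⟩ = x j := by
        show e.symm ⟨L x, ⟨x, rfl⟩⟩ j = x j
        rw [hex]
      have h2 : ‖(⟨L x, ⟨x, rfl⟩⟩ : LinearMap.range L)‖ = ‖L x‖ := rfl
      rw [h1, h2, one_mul]
      have h3 : ‖x j‖ ^ 2 ≤ ‖L x‖ ^ 2 := by
        rw [hL]
        by_cases hj : j ∈ x.support
        · exact Finset.single_le_sum (f := fun j => ‖x j‖ ^ 2) (fun i _ => sq_nonneg _) hj
        · rw [Finsupp.notMem_support_iff.1 hj]
          simpa using Finset.sum_nonneg fun i _ => sq_nonneg _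
      exact le_of_sq_le_sq h3 (norm_nonneg _)
    obtain ⟨g, hg1, hg2⟩ := exists_extension_norm_eq (LinearMap.range L)
      (LinearMap.mkContinuous f0 1 hf)
    refine ⟨g, ?_, fun x => ?_⟩
    · rw [hg2]; exact LinearMap.mkContinuous_norm_le _ zero_le_one _
    · have := hg1 ⟨L x, ⟨x, rfl⟩⟩
      rw [this]
      show e.symm ⟨L x, ⟨x, rfl⟩⟩ j = x j
      rw [hex]
  choose q hq1 hq2 using key
  exact ⟨q, hq1, hq2⟩

/-- Finite rank operators. -/
def FinR (u : P →L[ℂ] P) : Prop := FiniteDimensional ℂ (LinearMap.range u.toLinearMap)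

lemma FinR.add {u v : P →L[ℂ] P} (hu : FinR u) (hv : FinR v) : FinR (u + v) := by
  unfold FinR at *
  have := hu
  have := hv
  have h : LinearMap.range (u + v).toLinearMap ≤
      LinearMap.range u.toLinearMap ⊔ LinearMap.range v.toLinearMap := by
    rintro _ ⟨x, rfl⟩
    exact Submodule.add_mem_sup ⟨x, rfl⟩ ⟨x, rfl⟩
  exact Submodule.finiteDimensional_of_le h

lemma FinR.zero : FinR (0 : P →L[ℂ] P) := by
  unfold FinR
  have h : LinearMap.range (0 : P →L[ℂ] P).toLinearMap ≤ ⊥ := by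
    rintro _ ⟨x, rfl⟩; simp
  exact Submodule.finiteDimensional_of_le h

lemma FinR.smul {u : P →L[ℂ] P} (c : ℂ) (hu : FinR u) : FinR (c • u) := by
  unfold FinR at *
  have := hu
  have h : LinearMap.range (c • u).toLinearMap ≤ LinearMap.range u.toLinearMap := by
    rintro _ ⟨x, rfl⟩
    exact Submodule.smul_mem _ c ⟨x, rfl⟩
  exact Submodule.finiteDimensional_of_le h

lemma FinR.rank_one (φ : P →L[ℂ] ℂ) (z : P) : FinR (φ.smulRight z) := by
  unfold FinR
  have h : LinearMap.range (φ.smulRight z).toLinearMap ≤ Submodule.span ℂ {z} := by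
    rintro _ ⟨x, rfl⟩
    exact Submodule.smul_mem _ _ (Submodule.subset_span rfl)
  exact Submodule.finiteDimensional_of_le h

lemma FinR.sum {ι : Type*} (s : Finset ι) (u : ι → P →L[ℂ] P) (h : ∀ i ∈ s, FinR (u i)) :
    FinR (∑ i ∈ s, u i) := by
  classical
  induction s using Finset.induction_on with
  | empty => simpa using FinR.zero
  | insert a s ha ih =>
    rw [Finset.sum_insert ha]
    exact (h a (by simp)).add (ih fun i hi => h i (by simp [hi]))

/-- The diagonal operator. -/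
lemma exists_T [CompleteSpace P] {L : (Jx →₀ ℂ) →ₗ[ℂ] P}
    (hL : ∀ x, ‖L x‖ ^ 2 = ∑ j ∈ x.support, ‖x j‖ ^ 2) :
    ∃ T ∈ Apx P, ∀ (k : ℕ) (j : Fin (16 ^ k)),
      T (L (Finsupp.single (k, (j : ℕ)) 1)) = ((8 ^ k : ℝ)⁻¹ : ℂ) • L (Finsupp.single (k, (j : ℕ)) 1) := by
  classical
  obtain ⟨q, hq1, hq2⟩ := exists_q hL
  set e : ℕ → ℕ → P := fun k j => L (Finsupp.single (k, j) 1) with he
  set Q : ℕ → (P →L[ℂ] P) := fun k => ∑ j : Fin (16 ^ k), (q (k, (j : ℕ))).smulRight (e k j) with hQ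
  have hinj : ∀ k, Function.Injective (fun j : Fin (16 ^ k) => ((k, (j : ℕ)) : Jx)) := by
    intro k i j h
    have := congrArg Prod.snd h
    exact Fin.ext this
  have hQn : ∀ k, ‖Q k‖ ≤ 4 ^ k := by
    intro k
    refine ContinuousLinearMap.opNorm_le_bound _ (by positivity) fun x => ?_
    have h1 : Q k x = ∑ j : Fin (16 ^ k), q (k, (j : ℕ)) x • L (Finsupp.single ((k, (j : ℕ)) : Jx) 1) := by
      rw [hQ]; simp only [_root_.sum_apply, ContinuousLinearMap.smulRight_apply, he]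
    have h2 := sum_emb hL _ (hinj k) (fun j => q (k, (j : ℕ)) x)
    rw [← h1] at h2
    have h3 : ∑ j : Fin (16 ^ k), ‖q (k, (j : ℕ)) x‖ ^ 2 ≤ (4 ^ k * ‖x‖) ^ 2 := by
      calc ∑ j : Fin (16 ^ k), ‖q (k, (j : ℕ)) x‖ ^ 2 ≤ ∑ _j : Fin (16 ^ k), ‖x‖ ^ 2 := by
            refine Finset.sum_le_sum fun j _ => pow_le_pow_left₀ (norm_nonneg _) ?_ 2
            refine ((q (k, (j : ℕ))).le_opNorm x).trans ?_
            have := hq1 (k, (j : ℕ))
            nlinarith [norm_nonneg x]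
        _ = (16 : ℝ) ^ k * ‖x‖ ^ 2 := by simp
        _ = (4 ^ k * ‖x‖) ^ 2 := by
            rw [mul_pow, ← pow_mul, mul_comm k 2, pow_mul]; norm_num
    rw [← h2] at h3
    exact le_of_sq_le_sq h3 (by positivity)
  have hQe : ∀ k k' (j : Fin (16 ^ k)), Q k' (e k j) = if k' = k then e k j else 0 := by
    intro k k' j
    have h1 : Q k' (e k j) = ∑ i : Fin (16 ^ k'), q (k', (i : ℕ)) (e k j) • e k' i := by
      rw [hQ]; simp only [_root_.sum_apply, ContinuousLinearMap.smulRight_apply]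
    rw [h1]
    have h2 : ∀ i : Fin (16 ^ k'), q (k', (i : ℕ)) (e k j) = if ((k, (j : ℕ)) : Jx) = (k', (i : ℕ)) then 1 else 0 := by
      intro i
      rw [he]
      simp only [hq2]
      rw [Finsupp.single_apply]
    simp_rw [h2]
    split_ifs with hk
    · subst hk
      rw [Finset.sum_eq_single j]
      · simp
      · intro i _ hi
        rw [if_neg, zero_smul]
        intro h
        exact hi (hinj k' h).symm
      · intro h; exact absurd (mem_univ j) h
    · refine Finset.sum_eq_zero fun i _ => ?_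
      rw [if_neg, zero_smul]
      intro h
      exact hk (congrArg Prod.fst h).symm
  set R : ℕ → (P →L[ℂ] P) := fun k => ((8 ^ k : ℝ)⁻¹ : ℂ) • Q k with hR
  have hRn : ∀ k, ‖R k‖ ≤ (1 / 2) ^ k := by
    intro k
    rw [hR]
    simp only [norm_smul]
    have h1 : ‖((8 ^ k : ℝ)⁻¹ : ℂ)‖ = (8 ^ k : ℝ)⁻¹ := by
      rw [← Complex.ofReal_inv, Complex.norm_real, Real.norm_of_nonneg (by positivity)]
    rw [h1]
    calc (8 ^ k : ℝ)⁻¹ * ‖Q k‖ ≤ (8 ^ k : ℝ)⁻¹ * 4 ^ k :=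
          mul_le_mul_of_nonneg_left (hQn k) (by positivity)
      _ = (1 / 2) ^ k := by
          rw [inv_mul_eq_div, ← div_pow]; norm_num
  have hsum : Summable R :=
    Summable.of_norm_bounded (summable_geometric_of_lt_one (by norm_num) (by norm_num)) hRn
  refine ⟨∑' k, R k, ?_, fun k j => ?_⟩
  · refine mem_closure_of_tendsto hsum.hasSum.tendsto_sum_nat (Filter.Eventually.of_forall fun m => ?_)
    exact FinR.sum _ _ fun k _ => FinR.smul _ (FinR.sum _ _ fun j _ => FinR.rank_one _ _)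
  · have h1 := hsum.hasSum.mapL (ContinuousLinearMap.apply ℂ P (e k j))
    have h2 : HasSum (fun k' => R k' (e k j)) (((8 ^ k : ℝ)⁻¹ : ℂ) • e k j) := by
      have : (fun k' => R k' (e k j)) = fun k' => if k' = k then ((8 ^ k : ℝ)⁻¹ : ℂ) • e k j else 0 := by
        funext k'
        rw [hR]
        simp only [smul_apply, hQe]
        split_ifs with h
        · rw [h]
        · simp
      rw [this]
      exact hasSum_ite_eq k _
    exact h1.unique h2

/-- The main estimate. -/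
lemma no_factor {L : (Jx →₀ ℂ) →ₗ[ℂ] P}
    (hL : ∀ x, ‖L x‖ ^ 2 = ∑ j ∈ x.support, ‖x j‖ ^ 2) {N : ℕ} (A B : Fin N → (P →L[ℂ] P)) (K : ℝ)
    (hK : 1 ≤ K) (hA : ∀ l, Valid (A l) K) (hB : ∀ l, Valid (B l) K)
    (hT : ∀ (k : ℕ) (j : Fin (16 ^ k)), (∑ l, A l ∘L B l) (L (Finsupp.single (k, (j : ℕ)) 1)) =
      ((8 ^ k : ℝ)⁻¹ : ℂ) • L (Finsupp.single (k, (j : ℕ)) 1)) (k : ℕ) :
    (4 : ℝ) ^ k ≤ 4 * N ^ 2 * ((N + 1) * K ^ 4) := by
  classical
  set n : ℕ := 16 ^ k with hn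
  set f : Fin n → Jx := fun j => (k, (j : ℕ)) with hf
  have hinj : Function.Injective f := by
    intro i j h
    have := congrArg Prod.snd h
    exact Fin.ext this
  -- the isometric embedding
  have hJ : ∃ J : EuclideanSpace ℂ (Fin n) →ₗ[ℂ] P, (∀ a, ‖J a‖ = ‖a‖) ∧
      ∀ a, (∑ l, A l ∘L B l) (J a) = ((8 ^ k : ℝ)⁻¹ : ℂ) • J a := by
    refine ⟨⟨⟨fun a => ∑ i, a i • L (Finsupp.single (f i) 1), fun a b => ?_⟩, fun c a => ?_⟩,
      fun a => ?_, fun a => ?_⟩
    · simp only [PiLp.add_apply, add_smul, Finset.sum_add_distrib]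
    · simp only [PiLp.smul_apply, smul_eq_mul, mul_smul, Finset.smul_sum, RingHom.id_apply]
    · have h1 := sum_emb hL f hinj (fun i => a i)
      have h2 : ‖a‖ ^ 2 = ∑ i, ‖a i‖ ^ 2 := EuclideanSpace.norm_sq_eq a
      rw [← h2] at h1
      exact (sq_eq_sq₀ (norm_nonneg _) (norm_nonneg _)).1 h1
    · show (∑ l, A l ∘L B l) (∑ i, a i • L (Finsupp.single (f i) 1)) =
        ((8 ^ k : ℝ)⁻¹ : ℂ) • (∑ i, a i • L (Finsupp.single (f i) 1))
      rw [map_sum, Finset.smul_sum]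
      refine Finset.sum_congr rfl fun i _ => ?_
      rw [map_smul, hT k i, smul_comm]
  obtain ⟨J, hJn, hJT⟩ := hJ
  have hJup : ∀ (m : ℕ) (h : Fin m → EuclideanSpace ℂ (Fin n)), Orthonormal ℂ h →
      Up2 (fun i => J (h i)) := by
    intro m h ho a
    have h1 : ∑ i, a i • J (h i) = J (∑ i, a i • h i) := by simp [map_sum]
    rw [h1, hJn, orth_norm ho]
  set β : EuclideanSpace ℂ (Fin n) → ℝ := fun x => Real.sqrt (∑ l, ‖B l (J x)‖ ^ 2) with hβ
  set D : ℝ := (N + 1) * K ^ 2 with hD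
  have hD0 : 0 < D := by positivity
  have hnpos : (0:ℝ) < n := by rw [hn]; positivity
  set τ : ℝ := Real.sqrt (2 * D / n) with hτ
  have hτ0 : 0 < τ := Real.sqrt_pos.2 (by positivity)
  have hτ2 : τ ^ 2 = 2 * D / n := Real.sq_sqrt (by positivity)
  have hsq : ∀ {m : ℕ} (x : Fin m → P) (u : P →L[ℂ] P), Valid u K → Up2 x →
      ∑ i, ‖u (x i)‖ ^ 2 ≤ K ^ 2 := by
    intro m x u hu hx
    have := hu m x hx
    rwa [Real.sqrt_le_left (by linarith)] at this
  obtain ⟨m, g, hg, hm, hb⟩ := exists_sub (H := EuclideanSpace ℂ (Fin n)) n (by simp) β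
    (by
      intro c x
      rw [hβ]
      simp only [map_smul, norm_smul, mul_pow, ← Finset.mul_sum]
      rw [Real.sqrt_mul (sq_nonneg _), Real.sqrt_sq (norm_nonneg _)])
    D τ hτ0
    (by
      intro m h ho
      have h1 : ∀ i, β (h i) ^ 2 = ∑ l, ‖B l (J (h i))‖ ^ 2 := fun i =>
        Real.sq_sqrt (Finset.sum_nonneg fun l _ => sq_nonneg _)
      simp_rw [h1]
      rw [Finset.sum_comm]
      calc ∑ l, ∑ i, ‖B l (J (h i))‖ ^ 2 ≤ ∑ _l : Fin N, K ^ 2 :=
            Finset.sum_le_sum fun l _ => hsq _ _ (hB l) (hJup m h ho)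
        _ = N * K ^ 2 := by simp
        _ ≤ D := by rw [hD]; nlinarith [sq_nonneg K])
    (by rw [hτ2]; field_simp; rfl)
  -- upper estimate
  have h1 : ∀ l, Real.sqrt (∑ i, ‖A l (B l (J (g i)))‖ ^ 2) ≤ K * τ := by
    intro l
    have hup : Up2 (fun i => ((τ⁻¹ : ℝ) : ℂ) • B l (J (g i))) := by
      intro a
      have h2 : ∑ i, a i • ((τ⁻¹ : ℝ) : ℂ) • B l (J (g i)) =
          ((τ⁻¹ : ℝ) : ℂ) • B l (J (∑ i, a i • g i)) := by
        simp only [map_sum, map_smul, Finset.smul_sum]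
        exact Finset.sum_congr rfl fun i _ => smul_comm _ _ _
      rw [h2, norm_smul, Complex.norm_real, Real.norm_of_nonneg (by positivity), mul_pow]
      have h3 : ‖B l (J (∑ i, a i • g i))‖ ≤ β (∑ i, a i • g i) := by
        refine Real.le_sqrt_of_sq_le ?_
        exact Finset.single_le_sum (f := fun l => ‖B l (J (∑ i, a i • g i))‖ ^ 2)
          (fun l _ => sq_nonneg _) (mem_univ l)
      have h4 := h3.trans (hb a)
      have h5 := pow_le_pow_left₀ (norm_nonneg _) h4 2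
      rw [mul_pow, orth_norm hg] at h5
      calc τ⁻¹ ^ 2 * ‖B l (J (∑ i, a i • g i))‖ ^ 2 ≤ τ⁻¹ ^ 2 * (τ ^ 2 * ∑ i, ‖a i‖ ^ 2) :=
            mul_le_mul_of_nonneg_left h5 (sq_nonneg _)
        _ = _ := by field_simp
    have h2 := hA l m _ hup
    have h3 : ∑ i, ‖A l (((τ⁻¹ : ℝ) : ℂ) • B l (J (g i)))‖ ^ 2 =
        τ⁻¹ ^ 2 * ∑ i, ‖A l (B l (J (g i)))‖ ^ 2 := by
      rw [Finset.mul_sum]
      refine Finset.sum_congr rfl fun i _ => ?_
      rw [map_smul, norm_smul, Complex.norm_real, Real.norm_of_nonneg (by positivity), mul_pow]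
    rw [h3, Real.sqrt_mul (sq_nonneg _), Real.sqrt_sq (by positivity), inv_mul_le_iff₀ hτ0] at h2
    linarith
  -- sum over l
  have h2 : Real.sqrt (∑ i, ‖(∑ l, A l ∘L B l) (J (g i))‖ ^ 2) ≤ N * (K * τ) := by
    have key : ∀ s : Finset (Fin N), Real.sqrt (∑ i, ‖(∑ l ∈ s, A l ∘L B l) (J (g i))‖ ^ 2) ≤
        s.card * (K * τ) := by
      intro s
      induction s using Finset.induction_on with
      | empty => simp
      | insert a s ha ih =>
        rw [Finset.sum_insert ha, Finset.card_insert_of_notMem ha]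
        have h3 : Real.sqrt (∑ i, ‖(A a ∘L B a + ∑ l ∈ s, A l ∘L B l) (J (g i))‖ ^ 2) ≤
            Real.sqrt (∑ i, (‖A a (B a (J (g i)))‖ + ‖(∑ l ∈ s, A l ∘L B l) (J (g i))‖) ^ 2) :=
          sqrt_sum_mono (fun i => norm_nonneg _) fun i => norm_add_le _ _
        have h4 := sqrt_sum_add (fun i => ‖A a (B a (J (g i)))‖)
          (fun i => ‖(∑ l ∈ s, A l ∘L B l) (J (g i))‖)
        rw [Nat.cast_add_one]
        linarith [h1 a]
    have := key Finset.univ
    simpa using this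
  -- lower estimate
  have h3 : ∑ i, ‖(∑ l, A l ∘L B l) (J (g i))‖ ^ 2 = m * ((8 ^ k : ℝ)⁻¹) ^ 2 := by
    have : ∀ i, ‖(∑ l, A l ∘L B l) (J (g i))‖ ^ 2 = ((8 ^ k : ℝ)⁻¹) ^ 2 := by
      intro i
      rw [hJT, norm_smul, hJn, hg.1 i, mul_one, ← Complex.ofReal_inv, Complex.norm_real,
        Real.norm_of_nonneg (by positivity)]
    simp_rw [this]
    simp
  have h4 : ∑ i, ‖(∑ l, A l ∘L B l) (J (g i))‖ ^ 2 ≤ (N * (K * τ)) ^ 2 := by
    rwa [Real.sqrt_le_left (by positivity)] at h2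
  rw [h3] at h4
  have h5 : (N * (K * τ)) ^ 2 = N ^ 2 * K ^ 2 * (2 * D / n) := by
    rw [mul_pow, mul_pow, hτ2]; ring
  rw [h5] at h4
  have h6 : (n : ℝ) ≤ 2 * m := by exact_mod_cast hm
  have h7 : (n : ℝ) = 16 ^ k := by rw [hn]; push_cast; rfl
  have h8 : (n : ℝ) / 2 * ((8 ^ k : ℝ)⁻¹) ^ 2 ≤ N ^ 2 * K ^ 2 * (2 * D / n) :=
    le_trans (mul_le_mul_of_nonneg_right (by linarith) (by positivity)) h4
  have h9 : (n : ℝ) / 2 * ((8 ^ k : ℝ)⁻¹) ^ 2 * (2 * n) ≤ N ^ 2 * K ^ 2 * (2 * D / n) * (2 * n) :=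
    mul_le_mul_of_nonneg_right h8 (by positivity)
  have h10 : (n : ℝ) / 2 * ((8 ^ k : ℝ)⁻¹) ^ 2 * (2 * n) = 4 ^ k := by
    rw [h7]
    have e1 : (16 : ℝ) ^ k = 4 ^ k * 4 ^ k := by rw [← mul_pow]; norm_num
    have e2 : (8 : ℝ) ^ k * 8 ^ k = 4 ^ k * (4 ^ k * 4 ^ k) := by
      rw [← mul_pow, ← mul_pow, ← mul_pow]; norm_num
    have e3 : (8 : ℝ) ^ k ≠ 0 := by positivity
    field_simp
    rw [e1]
    have e4 : ((8 : ℝ) ^ k) ^ 2 = 4 ^ k * (4 ^ k * 4 ^ k) := by rw [sq, e2]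
    rw [e4]; ring
  have h11 : (N : ℝ) ^ 2 * K ^ 2 * (2 * D / n) * (2 * n) = 4 * N ^ 2 * ((N + 1) * K ^ 4) := by
    rw [hD]; field_simp; ring
  rw [h10, h11] at h9
  exact h9

end constr

/-- The main theorem, for an arbitrary good space. -/
theorem good_main {P : Type} [NormedAddCommGroup P] [NormedSpace ℂ P] [CompleteSpace P]
    (hP : Good P) :
    ∃ T ∈ Apx P, T ∉ Submodule.span ℂ {W : P →L[ℂ] P | ∃ A ∈ Apx P, ∃ B ∈ Apx P, W = A ∘L B} := by
  classical
  obtain ⟨L, hL⟩ := hP.hil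
  obtain ⟨T, hT, hTe⟩ := exists_T hL
  refine ⟨T, hT, fun hmem => ?_⟩
  obtain ⟨N, c, g, hg⟩ := Submodule.mem_span_set'.1 hmem
  choose A hA B hB hAB using fun i => (g i).2
  have hvs : ∀ (c : ℂ) (u : P →L[ℂ] P) (M : ℝ), Valid u M → Valid (c • u) (‖c‖ * M) := by
    intro c u M h n x hx
    have h1 : ∑ i, ‖(c • u) (x i)‖ ^ 2 = ‖c‖ ^ 2 * ∑ i, ‖u (x i)‖ ^ 2 := by
      rw [Finset.mul_sum]
      refine Finset.sum_congr rfl fun i _ => ?_
      rw [smul_apply, norm_smul, mul_pow]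
    rw [h1, Real.sqrt_mul (sq_nonneg _), Real.sqrt_sq (norm_nonneg _)]
    exact mul_le_mul_of_nonneg_left (h n x hx) (norm_nonneg _)
  set K : ℝ := 1 + ∑ i, (‖c i‖ * (4000000000 * ‖A i‖) + 4000000000 * ‖B i‖) with hK
  have hle : ∀ i, ‖c i‖ * (4000000000 * ‖A i‖) + 4000000000 * ‖B i‖ ≤ K - 1 := by
    intro i
    rw [hK, add_sub_cancel_left]
    exact Finset.single_le_sum (f := fun i => ‖c i‖ * (4000000000 * ‖A i‖) + 4000000000 * ‖B i‖)
      (fun i _ => by positivity) (mem_univ i)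
  have hK1 : 1 ≤ K := by
    rw [hK]
    have : 0 ≤ ∑ i, (‖c i‖ * (4000000000 * ‖A i‖) + 4000000000 * ‖B i‖) :=
      Finset.sum_nonneg fun i _ => by positivity
    linarith
  have hVA : ∀ i, Valid (c i • A i) K := fun i =>
    (hvs (c i) (A i) _ (summing hP (hA i))).mono (by
      have := hle i
      have h2 : 0 ≤ 4000000000 * ‖B i‖ := by positivity
      linarith)
  have hVB : ∀ i, Valid (B i) K := fun i =>
    (summing hP (hB i)).mono (by
      have := hle i
      have h2 : 0 ≤ ‖c i‖ * (4000000000 * ‖A i‖) := by positivity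
      linarith)
  have hTeq : (∑ i, (c i • A i) ∘L B i) = T := by
    rw [← hg]
    refine Finset.sum_congr rfl fun i _ => ?_
    rw [hAB i]; rfl
  obtain ⟨k, hk⟩ := pow_unbounded_of_one_lt (4 * (N:ℝ) ^ 2 * ((N + 1) * K ^ 4)) (by norm_num : (1:ℝ) < 4)
  have := no_factor hL (fun i => c i • A i) B K hK1 hVA hVB
    (by intro k j; rw [hTeq]; exact hTe k j) k
  linarith

end H601R3
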