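import Pool.Agent.H601R3.Walsh

/-!
Comparison of first and second moments of sign averages (Kahane inequality with constant 3),
and cotype two for a seminorm.
-/

set_option autoImplicit false
set_option linter.unusedSectionVars false
set_option linter.unusedSimpArgs false

namespace H601R3
open Finset

variable {I : Type} [Fintype I] [DecidableEq I]

section
variable {E : Type*} [AddCommGroup E] [Module ℝ E]

lemma T_lev (ρ : ℝ) (x : I → E) : T ρ (lev x) = ρ • lev x := by
  refine ext_hat fun S => ?_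
  rw [T_eq, hat_mult, hat_smul]
  by_cases h : S.card = 1
  · rw [h, pow_one]
  · rw [hat_lev_of_ne x S h]; simp

lemma sum_mul_T (ρ : ℝ) (f : (I → Bool) → ℝ) :
    ∑ ε, f ε * T ρ f ε = cn I * ∑ S : Finset I, ρ ^ S.card * (hat f S) ^ 2 := by
  have h1 : ∀ S : Finset I, ∑ ε : I → Bool, chi S ε * f ε = cn I * hat f S := by
    intro S; unfold hat; simp only [smul_eq_mul]; rw [mul_inv_cancel_left₀ cn_ne]
  rw [T_eq]
  unfold mult
  simp only [smul_eq_mul, Finset.mul_sum]
  rw [Finset.sum_comm]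
  refine Finset.sum_congr rfl fun S _ => ?_
  have : ∀ ε : I → Bool, f ε * (ρ ^ S.card * chi S ε * hat f S) =
      (ρ ^ S.card * hat f S) * (chi S ε * f ε) := by intro ε; ring
  simp_rw [this]
  rw [← Finset.mul_sum, h1]; ring

lemma chi_not (S : Finset I) (ε : I → Bool) :
    chi S (fun i => !ε i) = (-1) ^ S.card * chi S ε := by
  unfold chi
  simp_rw [sg_not]
  rw [Finset.prod_neg]

lemma hat_odd {f : (I → Bool) → ℝ} (hf : ∀ ε, f (fun i => !ε i) = f ε) {S : Finset I}
    (hS : Odd S.card) : hat f S = 0 := by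
  have hinv : Function.Involutive (fun (ε : I → Bool) (i : I) => !ε i) := by
    intro ε; funext i; simp
  have h1 : ∑ ε : I → Bool, chi S ε * f ε = ∑ ε : I → Bool, -(chi S ε * f ε) := by
    conv_lhs => rw [← Equiv.sum_comp hinv.toPerm]
    refine Finset.sum_congr rfl fun ε _ => ?_
    show chi S (fun i => !ε i) * f (fun i => !ε i) = _
    rw [chi_not, hf, hS.neg_one_pow]; ring
  rw [Finset.sum_neg_distrib] at h1
  unfold hat
  simp only [smul_eq_mul]
  have : ∑ ε : I → Bool, chi S ε * f ε = 0 := by linarith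
  rw [this, mul_zero]

/-- Kahane type inequality. -/
theorem kahane (q : Seminorm ℝ E) (x : I → E) :
    Ex (fun ε => q (lev x ε) ^ 2) ≤ 3 * (Ex fun ε => q (lev x ε)) ^ 2 := by
  set f : (I → Bool) → ℝ := fun ε => q (lev x ε) with hf
  have hρ : |(1/2 : ℝ)| ≤ 1 := by rw [abs_of_pos] <;> norm_num
  have ha : ∀ ε, (1/2 : ℝ) * f ε ≤ T (1/2) f ε := by
    intro ε
    have := T_le q hρ (lev x) ε
    rw [T_lev, Pi.smul_apply, map_smul_eq_mul, Real.norm_of_nonneg (by norm_num)] at this
    exact this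
  have hfn : ∀ ε, 0 ≤ f ε := fun ε => apply_nonneg q _
  have hb : (1/2 : ℝ) * ∑ ε, f ε ^ 2 ≤ ∑ ε, f ε * T (1/2) f ε := by
    rw [Finset.mul_sum]
    refine Finset.sum_le_sum fun ε _ => ?_
    nlinarith [ha ε, hfn ε, mul_le_mul_of_nonneg_left (ha ε) (hfn ε)]
  have heven : ∀ ε, f (fun i => !ε i) = f ε := by
    intro ε
    have : lev x (fun i => !ε i) = - lev x ε := by
      unfold lev; simp [sg_not]
    simp only [hf, this, map_neg_eq_map]
  rw [sum_mul_T] at hb
  have hB : ∑ ε, f ε ^ 2 = cn I * ∑ S : Finset I, (hat f S) ^ 2 := by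
    have := parseval f
    simpa using this
  have hc := cn_pos (I := I)
  have hkey : ∑ S : Finset I, (1/2 : ℝ) ^ S.card * (hat f S) ^ 2 ≤
      (3/4) * (hat f ∅) ^ 2 + (1/4) * ∑ S : Finset I, (hat f S) ^ 2 := by
    have : (3/4 : ℝ) * (hat f ∅) ^ 2 = ∑ S : Finset I, if S = ∅ then (3/4) * (hat f S) ^ 2 else 0 := by
      simp
    rw [this, Finset.mul_sum, ← Finset.sum_add_distrib]
    refine Finset.sum_le_sum fun S _ => ?_
    by_cases h0 : S = ∅
    · subst h0; simp; nlinarith [sq_nonneg (hat f (∅ : Finset I))]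
    · rw [if_neg h0, zero_add]
      rcases Nat.even_or_odd S.card with he | ho
      · have h2 : 2 ≤ S.card := by
          have : S.card ≠ 0 := by simpa using h0
          rcases he with ⟨r, hr⟩; omega
        have : (1/2 : ℝ) ^ S.card ≤ (1/2) ^ 2 := pow_le_pow_of_le_one (by norm_num) (by norm_num) h2
        nlinarith [sq_nonneg (hat f S)]
      · rw [hat_odd heven ho]; simp
  rw [Ex_eq_hat f]
  have hE : Ex (fun ε => f ε ^ 2) = ∑ S : Finset I, (hat f S) ^ 2 := by
    unfold Ex; rw [hB, inv_mul_cancel_left₀ cn_ne]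
  show Ex (fun ε => f ε ^ 2) ≤ _
  rw [hE]
  rw [hB] at hb
  have : (1/2 : ℝ) * ∑ S : Finset I, (hat f S) ^ 2 ≤
      ∑ S : Finset I, (1/2 : ℝ) ^ S.card * (hat f S) ^ 2 := by
    have h' : cn I * ((1/2 : ℝ) * ∑ S : Finset I, (hat f S) ^ 2) ≤
        cn I * ∑ S : Finset I, (1/2 : ℝ) ^ S.card * (hat f S) ^ 2 := by linarith
    exact le_of_mul_le_mul_left h' hc
  linarith

theorem kahane_sqrt (q : Seminorm ℝ E) (x : I → E) :
    Real.sqrt (Ex (fun ε => q (lev x ε) ^ 2)) ≤ 2 * Ex fun ε => q (lev x ε) := by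
  have h := kahane q x
  have h0 : 0 ≤ Ex fun ε => q (lev x ε) := Ex_nonneg fun ε => apply_nonneg q _
  rw [Real.sqrt_le_left (by linarith)]
  nlinarith

end

end H601R3
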