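import Pool.Agent.H601R3.Step

/-!
The weighted L1 seminorm on finitely supported functions, and a density statement.
-/

set_option autoImplicit false
set_option linter.unusedSectionVars false
set_option linter.unusedSimpArgs false

namespace H601R3
open Finset

lemma minkowski {n : ℕ} {X : Type*} (s : Finset X) (x : X → Fin n → ℝ) :
    Real.sqrt (∑ i, (∑ γ ∈ s, x γ i) ^ 2) ≤ ∑ γ ∈ s, Real.sqrt (∑ i, (x γ i) ^ 2) := by
  classical
  induction s using Finset.induction_on with
  | empty => simp
  | insert a s ha ih =>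
    rw [Finset.sum_insert ha]
    simp_rw [Finset.sum_insert ha]
    exact (sqrt_sum_add _ _).trans (by linarith)

variable {X Y : Type}

/-- The L1 norm with weight 1000. -/
noncomputable def l1 (X : Type) : Seminorm ℂ (X →₀ ℂ) :=
  Seminorm.of (fun b => 1000 * ∑ x ∈ b.support, ‖b x‖)
    (by
      classical
      intro b c
      have h1 : ∀ (d : X →₀ ℂ), d.support ⊆ b.support ∪ c.support →
          ∑ x ∈ d.support, ‖d x‖ = ∑ x ∈ b.support ∪ c.support, ‖d x‖ := by
        intro d hd
        refine Finset.sum_subset hd fun x _ hx => ?_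
        rw [Finsupp.notMem_support_iff.1 hx, norm_zero]
      rw [h1 (b + c) Finsupp.support_add, h1 b Finset.subset_union_left,
        h1 c Finset.subset_union_right, ← mul_add, ← Finset.sum_add_distrib]
      refine mul_le_mul_of_nonneg_left (Finset.sum_le_sum fun x _ => ?_) (by norm_num)
      rw [Finsupp.add_apply]; exact norm_add_le _ _)
    (by
      classical
      intro r b
      have h1 : ∑ x ∈ (r • b).support, ‖(r • b) x‖ = ∑ x ∈ b.support, ‖(r • b) x‖ := by
        refine Finset.sum_subset Finsupp.support_smul fun x _ hx => ?_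
        rw [Finsupp.notMem_support_iff.1 hx, norm_zero]
      rw [h1]
      simp only [Finsupp.smul_apply, norm_smul, ← Finset.mul_sum]
      ring)

lemma l1_apply (b : X →₀ ℂ) : l1 X b = 1000 * ∑ x ∈ b.support, ‖b x‖ := rfl

lemma l1_eq (b : X →₀ ℂ) {s : Finset X} (h : b.support ⊆ s) :
    l1 X b = 1000 * ∑ x ∈ s, ‖b x‖ := by
  rw [l1_apply]
  congr 1
  refine Finset.sum_subset h fun x _ hx => ?_
  rw [Finsupp.notMem_support_iff.1 hx, norm_zero]

lemma l1_add (b c : X →₀ ℂ) (h : ∀ x, b x = 0 ∨ c x = 0) : l1 X (b + c) = l1 X b + l1 X c := by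
  classical
  rw [l1_eq (b + c) Finsupp.support_add, l1_eq b Finset.subset_union_left,
    l1_eq c Finset.subset_union_right, ← mul_add, ← Finset.sum_add_distrib]
  congr 1
  refine Finset.sum_congr rfl fun x _ => ?_
  rcases h x with h | h <;> simp [h]

lemma l1_mapDomain (f : X → Y) (hf : Function.Injective f) (b : X →₀ ℂ) :
    l1 Y (b.mapDomain f) = l1 X b := by
  classical
  rw [l1_apply, l1_apply, Finsupp.mapDomain_support_of_injective hf,
    Finset.sum_image (fun x _ y _ h => hf h)]
  congr 1
  refine Finset.sum_congr rfl fun x _ => ?_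
  rw [Finsupp.mapDomain_apply hf]

lemma l1_single (x : X) (z : ℂ) : l1 X (Finsupp.single x z) = 1000 * ‖z‖ := by
  classical
  rw [l1_eq _ Finsupp.support_single_subset]; simp

/-- Finitely supported functions, with only their complex vector space structure. -/
def FS (X : Type) : Type := X →₀ ℂ

noncomputable instance (X : Type) : AddCommGroup (FS X) := inferInstanceAs (AddCommGroup (X →₀ ℂ))
noncomputable instance (X : Type) : Module ℂ (FS X) := inferInstanceAs (Module ℂ (X →₀ ℂ))

/-- Evaluation. -/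
noncomputable def ev (x : X) : FS X →ₗ[ℂ] ℂ := Finsupp.lapply (R := ℂ) (M := ℂ) x

/-- The L1 seminorm on the type synonym. -/
noncomputable def l1F (X : Type) : Seminorm ℂ (FS X) := l1 X

lemma cot_l1 : Cot (l1F X) 2 := by
  classical
  intro n v
  set s : Finset X := Finset.univ.biUnion fun i => Finsupp.support (v i : X →₀ ℂ) with hs
  have h1 : ∀ i, l1F X (v i) = ∑ x ∈ s, 1000 * ‖ev x (v i)‖ := by
    intro i
    refine (l1_eq (v i : X →₀ ℂ) (s := s)
      (Finset.subset_biUnion_of_mem (fun i => Finsupp.support (v i : X →₀ ℂ)) (mem_univ i))).trans ?_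
    rw [Finset.mul_sum]; rfl
  have h2 : ∀ ε, l1F X (lev v ε) = ∑ x ∈ s, 1000 * ‖lev (fun i => ev x (v i)) ε‖ := by
    intro ε
    have hev : ∀ x, ev x (lev v ε) = lev (fun i => ev x (v i)) ε := fun x =>
      lev_map ((ev x).restrictScalars ℝ) v ε
    have hsup : Finsupp.support (lev v ε : X →₀ ℂ) ⊆ s := by
      intro x hx
      by_contra hxs
      rw [Finsupp.mem_support_iff] at hx
      apply hx
      show ev x (lev v ε) = 0
      rw [hev]
      have : ∀ i, ev x (v i) = 0 := by
        intro i
        by_contra hh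
        exact hxs (Finset.mem_biUnion.2 ⟨i, mem_univ i, Finsupp.mem_support_iff.2 hh⟩)
      simp [lev, this]
    refine (l1_eq (lev v ε : X →₀ ℂ) hsup).trans ?_
    rw [Finset.mul_sum]
    refine Finset.sum_congr rfl fun x _ => ?_
    rw [← hev]; rfl
  simp_rw [h1, h2]
  refine (minkowski s _).trans ?_
  have h3 : Ex (fun ε : Fin n → Bool => ∑ x ∈ s, 1000 * ‖lev (fun i => ev x (v i)) ε‖) =
      ∑ x ∈ s, 1000 * Ex fun ε => ‖lev (fun i => ev x (v i)) ε‖ := by
    unfold Ex
    rw [Finset.sum_comm, Finset.mul_sum]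
    refine Finset.sum_congr rfl fun x _ => ?_
    rw [← Finset.mul_sum]; ring
  rw [h3, Finset.mul_sum]
  refine Finset.sum_le_sum fun x _ => ?_
  have h4 := hilbert_cot n (fun i => ev x (v i))
  have h5 : Real.sqrt (∑ i, (1000 * ‖ev x (v i)‖) ^ 2) = 1000 * Real.sqrt (∑ i, ‖ev x (v i)‖ ^ 2) := by
    simp_rw [mul_pow, ← Finset.mul_sum]
    rw [Real.sqrt_mul (by norm_num), Real.sqrt_sq (by norm_num)]
  rw [h5]
  simp only at h4
  linarith

/-- Separability of a countably generated space in a seminorm. -/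
lemma exists_dense_seq {V : Type} [AddCommGroup V] [Module ℂ V] (N : Seminorm ℂ V)
    (S : Set V) (hS : S.Countable) (hspan : Submodule.span ℂ S = ⊤) (n : ℕ) :
    ∃ D : ℕ → (Fin n → V), ∀ (x : Fin n → V) (δ : ℝ), 0 < δ → ∃ l, ∀ i, N (x i - D l i) < δ := by
  letI : Norm V := ⟨fun x => N x⟩
  have core : SeminormedSpace.Core ℂ V :=
    ⟨fun x => apply_nonneg N x, fun c x => map_smul_eq_mul N c x, fun x y => map_add_le_add N x y⟩
  letI : SeminormedAddCommGroup V := SeminormedAddCommGroup.ofCore core
  letI : NormedSpace ℂ V := ⟨fun a b => (map_smul_eq_mul N a b).le⟩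
  have hsep : TopologicalSpace.IsSeparable (Set.univ : Set V) := by
    have := (hS.isSeparable).span (R := ℂ)
    rw [hspan] at this
    simpa using this
  haveI : TopologicalSpace.SeparableSpace V := TopologicalSpace.isSeparable_univ_iff.1 hsep
  refine ⟨TopologicalSpace.denseSeq (Fin n → V), fun x δ hδ => ?_⟩
  have hd := TopologicalSpace.denseRange_denseSeq (Fin n → V)
  obtain ⟨l, hl⟩ := hd.exists_dist_lt x hδ
  refine ⟨l, fun i => ?_⟩
  have h1 := (dist_pi_lt_iff hδ).1 hl i
  rw [dist_eq_norm] at h1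
  exact h1

end H601R3
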