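import Pool.Agent.H601R3.Space

/-!
The completion of the limit of the iterated amalgamation.
-/

set_option autoImplicit false
set_option linter.unusedSectionVars false
set_option linter.unusedSimpArgs false

namespace H601R3
open Finset

/-- The family `x` satisfies an upper 2-estimate with constant one. -/
def Up2 {P : Type*} [NormedAddCommGroup P] [NormedSpace ℂ P] {ι : Type*} [Fintype ι]
    (x : ι → P) : Prop := ∀ a : ι → ℂ, ‖∑ i, a i • x i‖ ^ 2 ≤ ∑ i, ‖a i‖ ^ 2

/-- The properties of the space that are used in the sequel. -/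
structure Good (P : Type) [NormedAddCommGroup P] [NormedSpace ℂ P] : Prop where
  cot : Cot (fun x : P => ‖x‖) 1000
  avg : ∀ (n : ℕ) (x : Fin n → P), Up2 x → ∀ δ : ℝ, 0 < δ →
    ∃ p : (Fin n → Bool) → P, (∀ ω, ‖p ω‖ ≤ 1000) ∧ ∀ i, ‖x i - hat p {i}‖ ≤ δ
  hil : ∃ L : (Jx →₀ ℂ) →ₗ[ℂ] P, ∀ x, ‖L x‖ ^ 2 = ∑ j ∈ x.support, ‖x j‖ ^ 2

noncomputable instance : SeminormedAddCommGroup VV :=
  letI : Norm VV := ⟨fun x => NN x⟩
  SeminormedAddCommGroup.ofCore (𝕜 := ℂ)
    ⟨fun x => apply_nonneg NN x, fun c x => map_smul_eq_mul NN c x,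
      fun x y => map_add_le_add NN x y⟩

lemma norm_VV (v : VV) : ‖v‖ = NN v := rfl

noncomputable instance : NormedSpace ℂ VV := ⟨fun a b => (map_smul_eq_mul NN a b).le⟩

/-- The completed space. -/
abbrev PP : Type := UniformSpace.Completion VV

/-- The canonical map. -/
noncomputable def can : VV →ₗᵢ[ℂ] PP := UniformSpace.Completion.toComplₗᵢ

lemma norm_can (v : VV) : ‖can v‖ = NN v := can.norm_map v

lemma can_dense (x : PP) (δ : ℝ) (hδ : 0 < δ) : ∃ v : VV, ‖x - can v‖ < δ := by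
  have h : DenseRange (can : VV → PP) := UniformSpace.Completion.denseRange_coe
  obtain ⟨v, hv⟩ := h.exists_dist_lt x hδ
  exact ⟨v, by rwa [dist_eq_norm] at hv⟩

lemma NN_le_N0 (v : VV) : NN v ≤ N0 v := NN_le 0 v

lemma PP_dense (n : ℕ) (x : Fin n → PP) (δ : ℝ) (hδ : 0 < δ) :
    ∃ l, ∀ i, ‖x i - can (DD n l i)‖ < δ := by
  choose v hv using fun i => can_dense (x i) (δ / 2) (half_pos hδ)
  obtain ⟨l, hl⟩ := DD_dense n v (δ / 2) (half_pos hδ)
  refine ⟨l, fun i => ?_⟩
  have h1 : x i - can (DD n l i) = (x i - can (v i)) + can (v i - DD n l i) := by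
    rw [map_sub]; abel
  rw [h1]
  have h2 := norm_add_le (x i - can (v i)) (can (v i - DD n l i))
  rw [norm_can] at h2
  linarith [hv i, hl i, NN_le_N0 (v i - DD n l i)]

lemma PP_cot : Cot (fun x : PP => ‖x‖) 1000 := by
  intro n x
  refine le_of_forall_pos_le_add fun δ hδ => ?_
  set η : ℝ := δ / (1001 * (n + 1)) with hη
  have hη0 : 0 < η := by positivity
  choose v hv using fun i => can_dense (x i) η hη0
  have h1 : Real.sqrt (∑ i, ‖x i‖ ^ 2) ≤ Real.sqrt (∑ i, NN (v i) ^ 2) + n * η := by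
    have h2 : Real.sqrt (∑ i, ‖x i‖ ^ 2) ≤ Real.sqrt (∑ i, (NN (v i) + η) ^ 2) := by
      refine sqrt_sum_mono (fun i => norm_nonneg _) fun i => ?_
      have := norm_add_le (x i - can (v i)) (can (v i))
      rw [sub_add_cancel, norm_can] at this
      linarith [hv i]
    have h3 := sqrt_sum_add (fun i => NN (v i)) (fun _ : Fin n => η)
    have h4 : Real.sqrt (∑ _i : Fin n, η ^ 2) ≤ n * η := by
      rw [Real.sqrt_le_left (by positivity)]
      simp only [Finset.sum_const, Finset.card_univ, Fintype.card_fin, nsmul_eq_mul]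
      rcases Nat.eq_zero_or_pos n with h | h
      · subst h; simp
      · have : (1:ℝ) ≤ n := by exact_mod_cast h
        nlinarith [sq_nonneg η, mul_nonneg (sub_nonneg.2 this) (sq_nonneg η)]
    linarith
  have h5 : 1000 * (Ex fun ε => NN (lev v ε)) ≤ 1000 * (Ex fun ε => ‖lev x ε‖) + 1000 * (n * η) := by
    have h6 : (Ex fun ε => NN (lev v ε)) ≤ Ex fun ε => (‖lev x ε‖ + n * η) := by
      refine Ex_mono fun ε => ?_
      have h7 : can (lev v ε) = lev (fun i => can (v i)) ε :=
        lev_map (can.toLinearMap.restrictScalars ℝ) v ε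
      have h8 : NN (lev v ε) = ‖lev (fun i => can (v i)) ε‖ := by rw [← h7, norm_can]
      rw [h8]
      have h9 : lev (fun i => can (v i)) ε = lev x ε - lev (fun i => x i - can (v i)) ε := by
        rw [lev_sub']; abel
      rw [h9]
      refine (norm_sub_le _ _).trans (add_le_add_right ?_ _)
      unfold lev
      refine (norm_sum_le _ _).trans ?_
      calc ∑ i, ‖sg (ε i) • (x i - can (v i))‖ ≤ ∑ _i : Fin n, η := by
            refine Finset.sum_le_sum fun i _ => ?_
            rw [norm_smul, Real.norm_eq_abs, abs_sg, one_mul]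
            exact (hv i).le
        _ = n * η := by simp
    rw [Ex_add, Ex_const] at h6
    linarith
  have h10 := NN_cot n v
  have h11 : n * η + 1000 * (n * η) ≤ δ := by
    have : n * η + 1000 * (n * η) = δ * (n / (n + 1)) := by
      rw [hη]; field_simp; ring
    rw [this]
    have h12 : (n:ℝ) / (n + 1) ≤ 1 := by rw [div_le_one (by positivity)]; linarith
    nlinarith
  simp only at h10 ⊢
  linarith

lemma PP_avg (n : ℕ) (x : Fin n → PP) (hx : Up2 x) (δ : ℝ) (hδ : 0 < δ) :
    ∃ p : (Fin n → Bool) → PP, (∀ ω, ‖p ω‖ ≤ 1000) ∧ ∀ i, ‖x i - hat p {i}‖ ≤ δ := by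
  classical
  have hx1 : ∀ i, ‖x i‖ ≤ 1 := by
    intro i
    have h := hx (fun j => if j = i then 1 else 0)
    have h1 : ∑ j, (if j = i then (1:ℂ) else 0) • x j = x i := by simp
    have h2 : ∑ j, ‖(if j = i then (1:ℂ) else 0)‖ ^ 2 = 1 := by
      rw [Finset.sum_eq_single i]
      · simp
      · intro j _ hj; simp [hj]
      · intro h; exact absurd (mem_univ i) h
    rw [h1, h2] at h
    nlinarith [norm_nonneg (x i)]
  set τ : ℝ := min (1 / 2) (δ / 3) with hτ
  have hτ0 : 0 < τ := lt_min (by norm_num) (by linarith)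
  have hτ1 : τ ≤ 1 / 2 := min_le_left _ _
  have hτ2 : τ ≤ δ / 3 := min_le_right _ _
  set η : ℝ := τ / (n + 1) with hη
  have hη0 : 0 < η := by positivity
  have hη1 : η ≤ τ := by
    rw [hη, div_le_iff₀ (by positivity)]
    nlinarith [(Nat.cast_nonneg n : (0:ℝ) ≤ n)]
  obtain ⟨l, hl⟩ := PP_dense n (fun i => ((1 - τ : ℝ) : ℂ) • x i) η hη0
  have hex : ∀ a : EuclideanSpace ℂ (Fin n), NN (∑ i, a i • DD n l i) ≤ ‖a‖ := by
    intro a
    have h1 : can (∑ i, a i • DD n l i) = ((1 - τ : ℝ) : ℂ) • (∑ i, a i • x i) -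
        ∑ i, a i • (((1 - τ : ℝ) : ℂ) • x i - can (DD n l i)) := by
      rw [map_sum]
      simp only [map_smul, smul_sub, Finset.sum_sub_distrib, Finset.smul_sum]
      have : ∀ i, ((1 - τ : ℝ) : ℂ) • a i • x i = a i • ((1 - τ : ℝ) : ℂ) • x i := fun i =>
        smul_comm _ _ _
      simp_rw [this]
      abel
    rw [← norm_can, h1]
    have h2 : ‖∑ i, a i • x i‖ ≤ ‖a‖ := by
      have := hx (fun i => a i)
      rw [EuclideanSpace.norm_eq]
      exact Real.le_sqrt_of_sq_le this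
    have h3 : ‖∑ i, a i • (((1 - τ : ℝ) : ℂ) • x i - can (DD n l i))‖ ≤ τ * ‖a‖ := by
      refine (norm_sum_le _ _).trans ?_
      calc ∑ i, ‖a i • (((1 - τ : ℝ) : ℂ) • x i - can (DD n l i))‖ ≤ ∑ _i : Fin n, ‖a‖ * η := by
            refine Finset.sum_le_sum fun i _ => ?_
            rw [norm_smul]
            exact mul_le_mul (PiLp.norm_apply_le a i) (hl i).le (norm_nonneg _) (norm_nonneg _)
        _ = ‖a‖ * (n * η) := by simp; ring
        _ ≤ ‖a‖ * τ := by
            refine mul_le_mul_of_nonneg_left ?_ (norm_nonneg _)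
            rw [hη]
            have : (n:ℝ) * (τ / (n + 1)) = τ * (n / (n + 1)) := by ring
            rw [this]
            have h12 : (n:ℝ) / (n + 1) ≤ 1 := by rw [div_le_one (by positivity)]; linarith
            nlinarith
        _ = _ := mul_comm _ _
    refine (norm_sub_le _ _).trans ?_
    rw [norm_smul, Complex.norm_real, Real.norm_of_nonneg (by linarith)]
    nlinarith [norm_nonneg a]
  obtain ⟨p, hp1, hp2⟩ := NN_exact n l hex
  refine ⟨fun ω => can (p ω), fun ω => by rw [norm_can]; exact hp1 ω, fun i => ?_⟩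
  have h1 : hat (fun ω => can (p ω)) {i} = can (hat p {i}) :=
    hat_map (can.toLinearMap.restrictScalars ℝ) p {i}
  have h2 : hat p {i} = (cn (Fin n))⁻¹ • ∑ ω, sg (ω i) • p ω := by
    unfold hat; simp
  have h3 : ‖can (DD n l i) - can (hat p {i})‖ = 0 := by
    rw [← map_sub, norm_can, h2]; exact hp2 i
  have h4 : x i - can (hat p {i}) = (τ : ℂ) • x i + ((((1 - τ : ℝ) : ℂ) • x i - can (DD n l i)) +
      (can (DD n l i) - can (hat p {i}))) := by
    have : ((1 - τ : ℝ) : ℂ) • x i = x i - (τ : ℂ) • x i := by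
      push_cast; rw [sub_smul, one_smul]
    rw [this]; abel
  rw [h1, h4]
  refine (norm_add_le _ _).trans ?_
  have h5 := norm_add_le (((1 - τ : ℝ) : ℂ) • x i - can (DD n l i)) (can (DD n l i) - can (hat p {i}))
  have h6 := hl i
  rw [norm_smul, Complex.norm_real, Real.norm_of_nonneg hτ0.le]
  have h7 : τ * ‖x i‖ ≤ τ := by nlinarith [hx1 i]
  linarith

lemma norm_incl (x : Jx →₀ ℂ) : ‖incl x‖ ^ 2 = ∑ j ∈ x.support, ‖x j‖ ^ 2 := by
  have h := lp.norm_sum_single (p := 2) (E := fun _ : Jx => ℂ) (by norm_num) (fun j => x j) x.support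
  have h1 : incl x = ∑ j ∈ x.support, lp.single 2 j (x j) := by
    unfold incl
    rw [Finsupp.linearCombination_apply, Finsupp.sum]
    refine Finset.sum_congr rfl fun j _ => ?_
    have h2 := map_smul (lp.lsingle (𝕜 := ℂ) (E := fun _ : Jx => ℂ) 2 j) (x j) (1 : ℂ)
    simp only [smul_eq_mul, mul_one] at h2
    exact h2.symm
  rw [h1]
  simpa using h

theorem PP_good : Good PP where
  cot := PP_cot
  avg := PP_avg
  hil := by
    have hadd : ∀ x y : Jx →₀ ℂ, mkV (x + y) 0 = mkV x 0 + mkV y 0 := fun x y =>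
      VV_ext (by simp) (by simp)
    have hsm : ∀ (c : ℂ) (x : Jx →₀ ℂ), mkV (c • x) 0 = c • mkV x 0 := fun x y =>
      VV_ext (by simp) (by simp)
    refine ⟨can.toLinearMap ∘ₗ ⟨⟨fun x => mkV x 0, hadd⟩, hsm⟩, fun x => ?_⟩
    show ‖can (mkV x 0)‖ ^ 2 = _
    rw [norm_can, NN_hilbert, norm_incl]

end H601R3
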