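import Pool.Agent.H601R3.L1

/-!
The iterated amalgamation: a seminorm with cotype two in which every Hilbertian family is given
by sign averages of a bounded family.
-/

set_option autoImplicit false
set_option linter.unusedSectionVars false
set_option linter.unusedSimpArgs false

namespace H601R3
open Finset

/-- Sizes of the blocks; every size occurs infinitely often. -/
def sz (k : ℕ) : ℕ := (Nat.unpair k).1

/-- Index set of the k-th block. -/
abbrev Om (k : ℕ) : Type := Fin (sz k) → Bool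

/-- Index set of all blocks. -/
abbrev Ga : Type := Σ k : ℕ, Om k

/-- Index set of the Hilbertian part. -/
abbrev Jx : Type := ℕ × ℕ

/-- The vector space. -/
def VV : Type := (Jx →₀ ℂ) × (Ga →₀ ℂ)

noncomputable instance : AddCommGroup VV := inferInstanceAs (AddCommGroup ((Jx →₀ ℂ) × (Ga →₀ ℂ)))
noncomputable instance : Module ℂ VV := inferInstanceAs (Module ℂ ((Jx →₀ ℂ) × (Ga →₀ ℂ)))

/-- First coordinate. -/
def f1 (v : VV) : Jx →₀ ℂ := Prod.fst (α := Jx →₀ ℂ) (β := Ga →₀ ℂ) v
/-- Second coordinate. -/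
def f2 (v : VV) : Ga →₀ ℂ := Prod.snd (α := Jx →₀ ℂ) (β := Ga →₀ ℂ) v
/-- Constructor. -/
def mkV (x : Jx →₀ ℂ) (b : Ga →₀ ℂ) : VV := (x, b)

@[simp] lemma f1_mk (x : Jx →₀ ℂ) (b : Ga →₀ ℂ) : f1 (mkV x b) = x := rfl
@[simp] lemma f2_mk (x : Jx →₀ ℂ) (b : Ga →₀ ℂ) : f2 (mkV x b) = b := rfl
lemma VV_ext {v w : VV} (h1 : f1 v = f1 w) (h2 : f2 v = f2 w) : v = w := Prod.ext h1 h2
@[simp] lemma f1_add (v w : VV) : f1 (v + w) = f1 v + f1 w := rfl
@[simp] lemma f2_add (v w : VV) : f2 (v + w) = f2 v + f2 w := rfl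
@[simp] lemma f1_sub (v w : VV) : f1 (v - w) = f1 v - f1 w := rfl
@[simp] lemma f2_sub (v w : VV) : f2 (v - w) = f2 v - f2 w := rfl
@[simp] lemma f1_smul (c : ℂ) (v : VV) : f1 (c • v) = c • f1 v := rfl
@[simp] lemma f2_smul (c : ℂ) (v : VV) : f2 (c • v) = c • f2 v := rfl
@[simp] lemma f1_zero : f1 0 = 0 := rfl
@[simp] lemma f2_zero : f2 0 = 0 := rfl
@[simp] lemma mk_eta (v : VV) : mkV (f1 v) (f2 v) = v := rfl

/-- First coordinate. -/
noncomputable def p1 : VV →ₗ[ℂ] (Jx →₀ ℂ) := ⟨⟨f1, f1_add⟩, f1_smul⟩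
/-- Second coordinate. -/
noncomputable def p2 : VV →ₗ[ℂ] (Ga →₀ ℂ) := ⟨⟨f2, f2_add⟩, f2_smul⟩
/-- Second coordinate. -/
noncomputable def p2F : VV →ₗ[ℂ] FS Ga := p2

/-- The Hilbert space of square summable functions. -/
noncomputable abbrev HH := lp (fun _ : Jx => ℂ) 2

/-- Inclusion of the finitely supported functions. -/
noncomputable def incl : (Jx →₀ ℂ) →ₗ[ℂ] HH :=
  Finsupp.linearCombination ℂ (fun j => lp.single 2 j (1 : ℂ))

/-- The initial seminorm. -/
noncomputable def N0 : Seminorm ℂ VV :=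
  Seminorm.of (fun v => ‖incl (f1 v)‖ + l1 Ga (f2 v))
    (by
      intro x y
      have h3 := norm_add_le (incl (f1 x)) (incl (f1 y))
      have h4 := map_add_le_add (l1 Ga) (f2 x) (f2 y)
      simp only [f1_add, f2_add, map_add]
      linarith)
    (by
      intro r x
      simp only [f1_smul, f2_smul, map_smul, norm_smul, map_smul_eq_mul]
      ring)

lemma N0_apply (v : VV) : N0 v = ‖incl (f1 v)‖ + l1 Ga (f2 v) := rfl

lemma span_VV : ∃ S : Set VV, S.Countable ∧ Submodule.span ℂ S = ⊤ := by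
  refine ⟨Set.range (fun j : Jx => mkV (Finsupp.single j 1) 0) ∪
    Set.range (fun g : Ga => mkV 0 (Finsupp.single g 1)),
    (Set.countable_range _).union (Set.countable_range _), ?_⟩
  rw [eq_top_iff]
  rintro v -
  have h1 : ∀ x : Jx →₀ ℂ, mkV x 0 ∈ Submodule.span ℂ (Set.range (fun j : Jx => mkV (Finsupp.single j 1) 0) ∪
    Set.range (fun g : Ga => mkV 0 (Finsupp.single g 1))) := by
    intro x
    induction x using Finsupp.induction_linear with
    | zero => exact Submodule.zero_mem _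
    | add f g hf hg =>
      have : mkV (f + g) 0 = mkV f 0 + mkV g 0 := VV_ext (by simp) (by simp)
      rw [this]; exact Submodule.add_mem _ hf hg
    | single a c =>
      have : mkV (Finsupp.single a c) 0 = c • mkV (Finsupp.single a 1) 0 :=
        VV_ext (by simp) (by simp)
      rw [this]
      exact Submodule.smul_mem _ _ (Submodule.subset_span (Or.inl ⟨a, rfl⟩))
  have h2 : ∀ b : Ga →₀ ℂ, mkV 0 b ∈ Submodule.span ℂ (Set.range (fun j : Jx => mkV (Finsupp.single j 1) 0) ∪
    Set.range (fun g : Ga => mkV 0 (Finsupp.single g 1))) := by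
    intro b
    induction b using Finsupp.induction_linear with
    | zero => exact Submodule.zero_mem _
    | add f g hf hg =>
      have : mkV 0 (f + g) = mkV 0 f + mkV 0 g := VV_ext (by simp) (by simp)
      rw [this]; exact Submodule.add_mem _ hf hg
    | single a c =>
      have : mkV 0 (Finsupp.single a c) = c • mkV 0 (Finsupp.single a 1) :=
        VV_ext (by simp) (by simp)
      rw [this]
      exact Submodule.smul_mem _ _ (Submodule.subset_span (Or.inr ⟨a, rfl⟩))
  have : v = mkV (f1 v) 0 + mkV 0 (f2 v) := VV_ext (by simp) (by simp)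
  rw [this]; exact Submodule.add_mem _ (h1 _) (h2 _)

lemma exists_D : ∃ D : (n : ℕ) → ℕ → (Fin n → VV), ∀ (n : ℕ) (x : Fin n → VV) (δ : ℝ), 0 < δ →
    ∃ l, ∀ i, N0 (x i - D n l i) < δ := by
  obtain ⟨S, hS, hspan⟩ := span_VV
  choose D hD using fun n => exists_dense_seq N0 S hS hspan n
  exact ⟨D, hD⟩

/-- Dense sequences of tuples. -/
noncomputable def DD : (n : ℕ) → ℕ → (Fin n → VV) := exists_D.choose

lemma DD_dense (n : ℕ) (x : Fin n → VV) (δ : ℝ) (hδ : 0 < δ) :
    ∃ l, ∀ i, N0 (x i - DD n l i) < δ := exists_D.choose_spec n x δ hδ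

/-- The tuple treated at stage k. -/
noncomputable def tup (k : ℕ) : Fin (sz k) → VV := DD (sz k) (Nat.unpair (Nat.unpair k).2).1

/-- Vectors living in the blocks before k. -/
def Low (k : ℕ) (v : VV) : Prop := ∀ g ∈ (f2 v).support, g.1 < k

lemma Low.mono {k l : ℕ} (h : k ≤ l) {v : VV} (hv : Low k v) : Low l v :=
  fun g hg => (hv g hg).trans_le h

lemma Low.add {k : ℕ} {v w : VV} (hv : Low k v) (hw : Low k w) : Low k (v + w) := by
  classical
  intro g hg
  rcases Finset.mem_union.1 (Finsupp.support_add hg) with h | h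
  · exact hv g h
  · exact hw g h

lemma Low.smul {k : ℕ} {v : VV} (c : ℂ) (hv : Low k v) : Low k (c • v) :=
  fun g hg => hv g (Finsupp.support_smul hg)

lemma Low.zero {k : ℕ} : Low k 0 := by
  intro g hg
  have : g ∈ (0 : Ga →₀ ℂ).support := hg
  simp at this

lemma Low.sum {k : ℕ} {ι : Type} (s : Finset ι) (f : ι → VV) (h : ∀ i ∈ s, Low k (f i)) :
    Low k (∑ i ∈ s, f i) := by
  classical
  induction s using Finset.induction_on with
  | empty => simpa using Low.zero
  | insert a s ha ih =>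
    rw [Finset.sum_insert ha]
    exact (h a (by simp)).add (ih fun i hi => h i (by simp [hi]))

lemma exists_low (v : VV) : ∃ k, Low k v := by
  refine ⟨(f2 v).support.sup (fun g => g.1) + 1, fun g hg => ?_⟩
  exact Nat.lt_succ_of_le (Finset.le_sup (f := fun g : Ga => g.1) hg)

lemma exists_low_fin {n : ℕ} (v : Fin n → VV) : ∃ k, ∀ i, Low k (v i) := by
  choose k hk using fun i => exists_low (v i)
  exact ⟨Finset.univ.sup k, fun i => (hk i).mono (Finset.le_sup (mem_univ i))⟩

/-- Additivity of the seminorm beyond stage k. -/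
def Split (N : Seminorm ℂ VV) (k : ℕ) : Prop :=
  ∀ (v : VV) (b : Ga →₀ ℂ), Low k v → (∀ g ∈ b.support, k ≤ g.1) →
    N (mkV (f1 v) (f2 v + b)) = N v + l1 Ga b

lemma Split.mono {N : Seminorm ℂ VV} {k : ℕ} (h : Split N k) : Split N (k + 1) := by
  classical
  intro v b hv hb
  set lo := (f2 v).filter (fun g => g.1 < k) with hlo
  set hi := (f2 v).filter (fun g => ¬ g.1 < k) with hhi
  have hsum : lo + hi = f2 v := Finsupp.filter_add_filter_not _ _
  have hL : Low k (mkV (f1 v) lo) := by
    intro g hg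
    have : g ∈ lo.support := hg
    rw [hlo, Finsupp.support_filter] at this
    exact (Finset.mem_filter.1 this).2
  have hH : ∀ g ∈ hi.support, k ≤ g.1 := by
    intro g hg
    rw [hhi, Finsupp.support_filter] at hg
    exact not_lt.1 (Finset.mem_filter.1 hg).2
  have hH' : ∀ g ∈ (hi + b).support, k ≤ g.1 := by
    intro g hg
    rcases Finset.mem_union.1 (Finsupp.support_add hg) with h | h
    · exact hH g h
    · exact (Nat.le_succ k).trans (hb g h)
  have h1 := h (mkV (f1 v) lo) hi hL hH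
  have h2 := h (mkV (f1 v) lo) (hi + b) hL hH'
  have h3 : l1 Ga (hi + b) = l1 Ga hi + l1 Ga b := by
    refine l1_add _ _ fun g => ?_
    by_contra hh
    push Not at hh
    have m1 : g ∈ (f2 v).support := by
      rw [Finsupp.mem_support_iff]
      intro h0
      apply hh.1
      rw [hhi, Finsupp.filter_apply]; split_ifs <;> simp [h0]
    have := hv g m1
    have := hb g (Finsupp.mem_support_iff.2 hh.2)
    omega
  have h4 : mkV (f1 v) (lo + hi) = v := by rw [hsum]; rfl
  simp only [f1_mk, f2_mk] at h1 h2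
  rw [← add_assoc, hsum] at h2
  rw [h4] at h1
  rw [h2, h3, h1]; ring

section block
variable (k : ℕ)

lemma sigma_inj : Function.Injective (Sigma.mk k : Om k → Ga) := sigma_mk_injective

/-- Coordinates in the k-th block. -/
noncomputable def be : VV →ₗ[ℂ] FS (Om k) :=
  (Finsupp.lcomapDomain (M := ℂ) (R := ℂ) (Sigma.mk k) (sigma_inj k)) ∘ₗ p2

/-- Inclusion of the k-th block. -/
noncomputable def io : FS (Om k) →ₗ[ℂ] VV :=
  (show (Ga →₀ ℂ) →ₗ[ℂ] VV from LinearMap.inr ℂ (Jx →₀ ℂ) (Ga →₀ ℂ)) ∘ₗ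
    (Finsupp.lmapDomain ℂ ℂ (Sigma.mk k : Om k → Ga))

lemma io_apply (b : FS (Om k)) :
    io k b = mkV 0 (Finsupp.mapDomain (Sigma.mk k) (show Om k →₀ ℂ from b)) := rfl

lemma be_io (b : FS (Om k)) : be k (io k b) = b :=
  Finsupp.leftInverse_lcomapDomain_mapDomain (R := ℂ) (M := ℂ) _ (sigma_inj k) b

lemma be_apply (v : VV) (ω : Om k) : ev ω (be k v) = f2 v ⟨k, ω⟩ := rfl

lemma be_low {v : VV} (hv : Low k v) : be k v = 0 := by
  refine Finsupp.ext (α := Om k) (M := ℂ) fun ω => ?_
  show ev ω (be k v) = 0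
  rw [be_apply]
  by_contra h
  have := hv _ (Finsupp.mem_support_iff.2 h)
  exact lt_irrefl _ this

lemma mem_support_map (b : Om k →₀ ℂ) {g : Ga} (hg : g ∈ (b.mapDomain (Sigma.mk k)).support) :
    g.1 = k := by
  classical
  rw [Finsupp.mapDomain_support_of_injective (sigma_inj k)] at hg
  obtain ⟨ω, _, rfl⟩ := Finset.mem_image.1 hg
  rfl

lemma low_io (b : FS (Om k)) : Low (k + 1) (io k b) := by
  intro g hg
  have := mem_support_map k b hg
  omega

lemma split_block {N : Seminorm ℂ VV} (h : Split N k) (v : VV) :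
    N v = N (v - io k (be k v)) + l1F (Om k) (be k v) := by
  classical
  set mid : Ga →₀ ℂ := Finsupp.mapDomain (Sigma.mk k) (show Om k →₀ ℂ from be k v) with hmid
  set r := f2 v - mid with hr
  set lo := r.filter (fun g => g.1 < k) with hlo
  set hi := r.filter (fun g => ¬ g.1 < k) with hhi
  have hsum : lo + hi = r := Finsupp.filter_add_filter_not _ _
  have hL : Low k (mkV (f1 v) lo) := by
    intro g hg
    have : g ∈ lo.support := hg
    rw [hlo, Finsupp.support_filter] at this
    exact (Finset.mem_filter.1 this).2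
  have hH : ∀ g ∈ hi.support, k ≤ g.1 := by
    intro g hg
    rw [hhi, Finsupp.support_filter] at hg
    exact not_lt.1 (Finset.mem_filter.1 hg).2
  have hH' : ∀ g ∈ (hi + mid).support, k ≤ g.1 := by
    intro g hg
    rcases Finset.mem_union.1 (Finsupp.support_add hg) with h | h
    · exact hH g h
    · exact (mem_support_map k _ h).ge
  have h1 := h (mkV (f1 v) lo) hi hL hH
  have h2 := h (mkV (f1 v) lo) (hi + mid) hL hH'
  have h3 : l1 Ga (hi + mid) = l1 Ga hi + l1 Ga mid := by
    refine l1_add _ _ fun g => ?_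
    by_cases hg : g.1 = k
    · left
      obtain ⟨k', ω⟩ := g
      simp only at hg
      subst hg
      have : mid ⟨k', ω⟩ = f2 v ⟨k', ω⟩ := by
        rw [hmid, Finsupp.mapDomain_apply (sigma_inj k')]; rfl
      rw [hhi, Finsupp.filter_apply]
      split_ifs
      · rfl
      · rw [hr, Finsupp.sub_apply, this, sub_self]
    · right
      by_contra hh
      exact hg (mem_support_map k _ (Finsupp.mem_support_iff.2 hh))
  have h4 : v - io k (be k v) = mkV (f1 v) (lo + hi) := by
    rw [hsum, hr, io_apply]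
    exact VV_ext (by simp) (by simp [hmid])
  have h5 : mkV (f1 v) (lo + (hi + mid)) = v := by
    rw [← add_assoc, hsum, hr]
    exact VV_ext (by simp) (by simp)
  have h6 : l1 Ga mid = l1F (Om k) (be k v) := l1_mapDomain _ (sigma_inj k) _
  simp only [f1_mk, f2_mk] at h1 h2
  rw [h5] at h2
  rw [h4, h1, ← h6, h2, h3]; ring

/-- The coefficient space of the k-th block. -/
abbrev AA : Type := EuclideanSpace ℂ (Fin (sz k))

/-- The linear combination map. -/
noncomputable def ww (x : Fin (sz k) → VV) : AA k →ₗ[ℂ] VV where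
  toFun a := ∑ i, a i • x i
  map_add' a b := by simp only [PiLp.add_apply, add_smul, Finset.sum_add_distrib]
  map_smul' c a := by simp only [PiLp.smul_apply, smul_eq_mul, mul_smul, Finset.smul_sum, RingHom.id_apply]

/-- The Rademacher embedding. -/
noncomputable def JJ0 : AA k →ₗ[ℂ] (Om k →₀ ℂ) where
  toFun a := Finsupp.equivFunOnFinite.symm fun ω => ((cn (Fin (sz k)))⁻¹ : ℝ) • lev (fun i => a i) ω
  map_add' a b := by
    ext ω
    simp [lev, smul_add, Finset.sum_add_distrib, mul_add]
  map_smul' c a := by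
    ext ω
    simp [lev, Finset.mul_sum]
    refine Finset.sum_congr rfl fun i _ => ?_
    ring

/-- The Rademacher embedding, into the type synonym. -/
noncomputable def JJ : AA k →ₗ[ℂ] FS (Om k) := JJ0 k

lemma l1_JJ (a : AA k) : l1F (Om k) (JJ k a) = 1000 * Ex fun ω => ‖lev (fun i => a i) ω‖ := by
  classical
  refine (l1_eq (JJ0 k a) (Finset.subset_univ _)).trans ?_
  congr 1
  unfold Ex
  rw [Finset.mul_sum]
  refine Finset.sum_congr rfl fun ω _ => ?_
  show ‖((cn (Fin (sz k)))⁻¹ : ℝ) • lev (fun i => a i) ω‖ = _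
  rw [norm_smul, Real.norm_of_nonneg (inv_nonneg.2 cn_pos.le)]

lemma JJ_lower (a : AA k) : 500 * ‖a‖ ≤ l1F (Om k) (JJ k a) := by
  rw [l1_JJ, EuclideanSpace.norm_eq]
  have := hilbert_cot (sz k) (fun i => a i)
  simp only at this
  linarith

lemma JJ_upper (a : AA k) : l1F (Om k) (JJ k a) ≤ 1000 * ‖a‖ := by
  rw [l1_JJ, EuclideanSpace.norm_eq, ← Ex_norm_lev]
  exact mul_le_mul_of_nonneg_left (Ex_le_sqrt _) (by norm_num)

/-- Admissibility of the tuple at stage k. -/
def Adm (N : Seminorm ℂ VV) : Prop := (∀ i, Low k (tup k i)) ∧ ∀ a, N (ww k (tup k) a) ≤ ‖a‖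

open Classical in
/-- The relation map at stage k. -/
noncomputable def LL (N : Seminorm ℂ VV) : AA k →ₗ[ℂ] VV :=
  if Adm k N then ww k (tup k) - io k ∘ₗ JJ k else 0

lemma low_ww (x : Fin (sz k) → VV) (hx : ∀ i, Low k (x i)) (a : AA k) : Low k (ww k x a) :=
  Low.sum _ _ fun i _ => (hx i).smul _

lemma low_LL (N : Seminorm ℂ VV) (a : AA k) : Low (k + 1) (LL k N a) := by
  unfold LL
  split_ifs with h
  · show Low (k + 1) (ww k (tup k) a - io k (JJ k a))
    rw [sub_eq_add_neg, ← neg_one_smul ℂ (io k (JJ k a))]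
    exact ((low_ww k _ h.1 a).mono (Nat.le_succ k)).add ((low_io k _).smul _)
  · exact Low.zero

lemma split_step {N : Seminorm ℂ VV} (h : Split N k) : Split (quotSem N (LL k N)) (k + 1) := by
  intro v b hv hb
  have h' := h.mono
  have key : ∀ a, N (mkV (f1 v) (f2 v + b) + LL k N a) = N (v + LL k N a) + l1 Ga b := by
    intro a
    have := h' (v + LL k N a) b (hv.add (low_LL k N a)) hb
    rw [← this]
    congr 1
    refine VV_ext (by simp) ?_
    simp only [f2_add, f2_mk]
    abel
  rw [quotSem_apply, quotSem_apply]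
  simp_rw [key]
  refine le_antisymm ?_ ?_
  · refine le_of_forall_pos_le_add fun δ hδ => ?_
    obtain ⟨a, ha⟩ := exists_quotSem N (LL k N) v hδ
    rw [quotSem_apply] at ha
    have hb' : BddBelow (Set.range fun a => N (v + LL k N a) + l1 Ga b) :=
      ⟨0, by rintro _ ⟨a, rfl⟩; exact add_nonneg (apply_nonneg _ _) (apply_nonneg _ _)⟩
    exact (ciInf_le hb' a).trans (by linarith)
  · exact le_ciInf fun a => add_le_add_left (ciInf_le (bdd N (LL k N) v) a) _

lemma iso_step {N : Seminorm ℂ VV} (h : Split N k) {v : VV} (hv : Low k v) :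
    quotSem N (LL k N) v = N v := by
  refine le_antisymm (quotSem_le_self _ _ _) (le_quotSem _ _ _ fun a => ?_)
  unfold LL
  split_ifs with hA
  · show N v ≤ N (v + (ww k (tup k) a - io k (JJ k a)))
    rw [split_block k h (v + (ww k (tup k) a - io k (JJ k a)))]
    have h1 : be k (v + (ww k (tup k) a - io k (JJ k a))) = - JJ k a := by
      rw [map_add, map_sub, be_low k hv, be_low k (low_ww k _ hA.1 a), be_io]; simp
    rw [h1]
    have h2 : v + (ww k (tup k) a - io k (JJ k a)) - io k (-JJ k a) = v + ww k (tup k) a := by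
      rw [map_neg]; abel
    rw [h2, map_neg_eq_map]
    have h3 := JJ_lower k a
    have h4 := hA.2 a
    have h5 : N v ≤ N (v + ww k (tup k) a) + N (ww k (tup k) a) := by
      have := map_sub_le_add N (v + ww k (tup k) a) (ww k (tup k) a)
      simpa using this
    have h6 := norm_nonneg a
    linarith
  · simp

lemma cot_step {N : Seminorm ℂ VV} (h : Split N k) (hN : Cot N 1000) :
    Cot (quotSem N (LL k N)) 1000 := by
  unfold LL
  split_ifs with hA
  · exact step_cot N (l1F (Om k)) (be k) (io k) (be_io k) (split_block k h) (ww k (tup k))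
      (fun a => be_low k (low_ww k _ hA.1 a)) hA.2 (JJ k) (JJ_lower k) (JJ_upper k) cot_l1 hN
  · have : ∀ v, quotSem N (0 : AA k →ₗ[ℂ] VV) v = N v := by
      intro v; rw [quotSem_apply]; simp
    intro n v
    simp_rw [this]
    exact hN n v

end block

/-- The sequence of seminorms. -/
noncomputable def Ns : ℕ → Seminorm ℂ VV
  | 0 => N0
  | k + 1 => quotSem (Ns k) (LL k (Ns k))

lemma incl_hom_lev {n : ℕ} (v : Fin n → VV) (ε : Fin n → Bool) :
    incl (f1 (lev v ε)) = lev (fun i => incl (f1 (v i))) ε := by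
  exact lev_map ((incl ∘ₗ p1).restrictScalars ℝ) v ε

lemma cot_N0 : Cot N0 1000 := by
  intro n v
  have h1 : Real.sqrt (∑ i, N0 (v i) ^ 2) ≤ Real.sqrt (∑ i, ‖incl (f1 (v i))‖ ^ 2) +
      Real.sqrt (∑ i, l1 Ga (f2 (v i)) ^ 2) :=
    sqrt_sum_add (fun i => ‖incl (f1 (v i))‖) (fun i => l1 Ga (f2 (v i)))
  have h2 : Real.sqrt (∑ i, ‖incl (f1 (v i))‖ ^ 2) ≤ 2 * Ex fun ε => ‖incl (f1 (lev v ε))‖ := by
    simp_rw [incl_hom_lev]
    let _ : InnerProductSpace ℝ HH := InnerProductSpace.complexToReal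
    exact hilbert_cot n (fun i => incl (f1 (v i)))
  have h3 : Real.sqrt (∑ i, l1 Ga (f2 (v i)) ^ 2) ≤ 2 * Ex fun ε => l1 Ga (f2 (lev v ε)) := by
    have h4 : ∀ ε, p2F (lev v ε) = lev (fun i => p2F (v i)) ε := fun ε =>
      lev_map (p2F.restrictScalars ℝ) v ε
    have h5 := cot_l1 (X := Ga) n (fun i => p2F (v i))
    simp_rw [← h4] at h5
    exact h5
  have h5 : (Ex fun ε => N0 (lev v ε)) = (Ex fun ε => ‖incl (f1 (lev v ε))‖) +
      Ex fun ε => l1 Ga (f2 (lev v ε)) := Ex_add _ _
  have h6 : 0 ≤ Ex fun ε => ‖incl (f1 (lev v ε))‖ := Ex_nonneg fun ε => norm_nonneg _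
  have h7 : 0 ≤ Ex fun ε => l1 Ga (f2 (lev v ε)) := Ex_nonneg fun ε => apply_nonneg _ _
  rw [h5]
  linarith

lemma split_N0 : Split N0 0 := by
  intro v b hv hb
  have h0 : f2 v = 0 := by
    rw [← Finsupp.support_eq_empty]
    refine Finset.eq_empty_of_forall_notMem fun g hg => ?_
    exact absurd (hv g hg) (Nat.not_lt_zero _)
  rw [N0_apply, N0_apply]; simp [h0]

lemma Ns_split : ∀ k, Split (Ns k) k
  | 0 => split_N0
  | k + 1 => split_step k (Ns_split k)

lemma Ns_cot : ∀ k, Cot (Ns k) 1000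
  | 0 => cot_N0
  | k + 1 => cot_step k (Ns_split k) (Ns_cot k)

lemma Ns_anti_step (k : ℕ) (v : VV) : Ns (k + 1) v ≤ Ns k v := quotSem_le_self _ _ _

lemma Ns_anti {k l : ℕ} (h : k ≤ l) (v : VV) : Ns l v ≤ Ns k v := by
  induction l, h using Nat.le_induction with
  | base => exact le_rfl
  | succ l _ ih => exact (Ns_anti_step l v).trans ih

lemma Ns_eq {k l : ℕ} (h : k ≤ l) {v : VV} (hv : Low k v) : Ns l v = Ns k v := by
  induction l, h using Nat.le_induction with
  | base => rfl
  | succ l hl ih => exact (iso_step l (Ns_split l) (hv.mono hl)).trans ih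

/-- The limit seminorm. -/
noncomputable def Nlim (v : VV) : ℝ := Ns (exists_low v).choose v

lemma Nlim_eq {k : ℕ} {v : VV} (hv : Low k v) : Nlim v = Ns k v := by
  unfold Nlim
  have h1 := (exists_low v).choose_spec
  rw [← Ns_eq (le_max_left _ k) h1, ← Ns_eq (le_max_right (exists_low v).choose k) hv]

/-- The limit seminorm, bundled. -/
noncomputable def NN : Seminorm ℂ VV :=
  Seminorm.of Nlim
    (by
      intro x y
      obtain ⟨k, hk⟩ := exists_low x
      obtain ⟨l, hl⟩ := exists_low y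
      have h1 := hk.mono (le_max_left k l)
      have h2 := hl.mono (le_max_right k l)
      rw [Nlim_eq h1, Nlim_eq h2, Nlim_eq (h1.add h2)]
      exact map_add_le_add _ _ _)
    (by
      intro r x
      obtain ⟨k, hk⟩ := exists_low x
      exact (Nlim_eq (hk.smul r)).trans
        ((map_smul_eq_mul _ _ _).trans (by rw [Nlim_eq hk])))

lemma NN_eq {k : ℕ} {v : VV} (hv : Low k v) : NN v = Ns k v := Nlim_eq hv

lemma NN_le (k : ℕ) (v : VV) : NN v ≤ Ns k v := by
  obtain ⟨l, hl⟩ := exists_low v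
  rw [NN_eq (hl.mono (le_max_left l k))]
  exact Ns_anti (le_max_right l k) v

theorem NN_cot : Cot NN 1000 := by
  intro n v
  obtain ⟨k, hk⟩ := exists_low_fin v
  have h1 : ∀ ε, NN (lev v ε) = Ns k (lev v ε) := by
    intro ε
    refine NN_eq (Low.sum _ _ fun i _ => ?_)
    have : (sg (ε i) • v i : VV) = ((sg (ε i) : ℝ) : ℂ) • v i := (Complex.coe_smul _ _).symm
    rw [this]
    exact (hk i).smul _
  simp_rw [h1, fun i => NN_eq (hk i)]
  exact Ns_cot k n v

theorem NN_hilbert (x : Jx →₀ ℂ) : NN (mkV x 0) = ‖incl x‖ := by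
  have : Low 0 (mkV x 0) := by
    intro g hg
    have : g ∈ (0 : Ga →₀ ℂ).support := hg
    simp at this
  rw [NN_eq this]
  show N0 (mkV x 0) = _
  rw [N0_apply]
  simp

/-- Unit vectors of a block. -/
noncomputable def sF (k : ℕ) (ω : Om k) : FS (Om k) := Finsupp.single ω 1

/-- Families of tuples treated exactly. -/
lemma NN_exact (n l : ℕ) (hx : ∀ a : EuclideanSpace ℂ (Fin n), NN (∑ i, a i • DD n l i) ≤ ‖a‖) :
    ∃ p : (Fin n → Bool) → VV, (∀ ω, NN (p ω) ≤ 1000) ∧
      ∀ i, NN (DD n l i - (cn (Fin n))⁻¹ • ∑ ω, sg (ω i) • p ω) = 0 := by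
  classical
  obtain ⟨K, hK⟩ := exists_low_fin (DD n l)
  set k := Nat.pair n (Nat.pair l K) with hk
  have hsz : sz k = n := by simp [sz, hk]
  have hKk : K ≤ k := (Nat.right_le_pair l K).trans (Nat.right_le_pair n _)
  have hl : (Nat.unpair (Nat.unpair k).2).1 = l := by simp [hk]
  -- move to the index `sz k`
  have gen : ∀ (m : ℕ) (hm : m = n) (x : Fin m → VV), (∀ i, x i = DD n l (Fin.cast hm i)) →
      (∃ p : (Fin m → Bool) → VV, (∀ ω, NN (p ω) ≤ 1000) ∧
        ∀ i, NN (x i - (cn (Fin m))⁻¹ • ∑ ω, sg (ω i) • p ω) = 0) →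
      ∃ p : (Fin n → Bool) → VV, (∀ ω, NN (p ω) ≤ 1000) ∧
        ∀ i, NN (DD n l i - (cn (Fin n))⁻¹ • ∑ ω, sg (ω i) • p ω) = 0 := by
    intro m hm x hx h
    subst hm
    have : x = DD m l := by funext i; rw [hx]; rfl
    rw [this] at h
    exact h
  have htup : ∀ i, tup k i = DD n l (Fin.cast hsz i) := by
    intro i
    unfold tup
    rw [hl]
    have gen2 : ∀ (m : ℕ) (hm : m = n) (i : Fin m), DD m l i = DD n l (Fin.cast hm i) := by
      intro m hm i; subst hm; rfl
    exact gen2 (sz k) hsz i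
  refine gen (sz k) hsz (tup k) htup ?_
  have hlow : ∀ i, Low k (tup k i) := by
    intro i; rw [htup]; exact (hK _).mono hKk
  have hadm : Adm k (Ns k) := by
    refine ⟨hlow, fun a => ?_⟩
    rw [← NN_eq (low_ww k _ hlow a)]
    have h1 := hx (WithLp.toLp 2 fun i => a (Fin.cast hsz.symm i))
    have h2 : ∑ i, (WithLp.toLp 2 fun i => a (Fin.cast hsz.symm i) : EuclideanSpace ℂ (Fin n)) i •
        DD n l i = ww k (tup k) a := by
      show ∑ i : Fin n, a (Fin.cast hsz.symm i) • DD n l i = ∑ i, a i • tup k i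
      simp_rw [htup]
      refine (Fintype.sum_equiv (finCongr hsz) _ _ fun i => ?_).symm
      simp
    have h3 : ‖(WithLp.toLp 2 fun i => a (Fin.cast hsz.symm i) : EuclideanSpace ℂ (Fin n))‖ = ‖a‖ := by
      rw [EuclideanSpace.norm_eq, EuclideanSpace.norm_eq]
      congr 1
      refine (Fintype.sum_equiv (finCongr hsz) _ _ fun i => ?_).symm
      simp
    rw [h2, h3] at h1
    exact h1
  refine ⟨fun ω => io k (sF k ω), fun ω => ?_, fun i => ?_⟩
  · have hlow0 : Low (k + 1) (io k (sF k ω)) := low_io k _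
    show NN (io k (sF k ω)) ≤ 1000
    refine (NN_le k _).trans ?_
    rw [split_block k (Ns_split k), be_io, sub_self, map_zero, zero_add]
    refine (l1_single ω 1).le.trans ?_
    simp
  · refine le_antisymm ?_ (apply_nonneg _ _)
    refine (NN_le (k + 1) _).trans (le_of_eq ?_)
    have h1 : tup k i - (cn (Fin (sz k)))⁻¹ • ∑ ω, sg (ω i) • io k (sF k ω) =
        LL k (Ns k) (EuclideanSpace.single i 1) := by
      unfold LL
      rw [if_pos hadm]
      show _ = ww k (tup k) (EuclideanSpace.single i 1) - io k (JJ k (EuclideanSpace.single i 1))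
      congr 1
      · show _ = ∑ j, (EuclideanSpace.single i (1:ℂ) : AA k) j • tup k j
        rw [Finset.sum_eq_single i]
        · simp
        · intro j _ hj; simp [hj]
        · intro h; exact absurd (mem_univ i) h
      · have h2 : JJ k (EuclideanSpace.single i 1) =
            (cn (Fin (sz k)))⁻¹ • ∑ ω, sg (ω i) • sF k ω := by
          refine Finsupp.ext (α := Om k) (M := ℂ) fun ω => ?_
          show ev ω (JJ k (EuclideanSpace.single i 1)) =
            ev ω ((cn (Fin (sz k)))⁻¹ • ∑ ω, sg (ω i) • sF k ω)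
          have e1 : ev ω ((cn (Fin (sz k)))⁻¹ • ∑ ω, sg (ω i) • sF k ω) =
              (cn (Fin (sz k)))⁻¹ • ∑ ω', sg (ω' i) • ev ω (sF k ω') := by
            have := map_smul ((ev ω).restrictScalars ℝ) ((cn (Fin (sz k)))⁻¹)
              (∑ ω, sg (ω i) • sF k ω)
            have h4 := map_sum ((ev ω).restrictScalars ℝ)
              (fun ω => sg (ω i) • sF k ω) Finset.univ
            have h5 : ∀ ω' : Om k, ((ev ω).restrictScalars ℝ) (sg (ω' i) • sF k ω') =
                sg (ω' i) • ((ev ω).restrictScalars ℝ) (sF k ω') := fun ω' =>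
              map_smul ((ev ω).restrictScalars ℝ) _ _
            simp_rw [h5] at h4
            rw [h4] at this
            exact this
          rw [e1]
          show ((cn (Fin (sz k)))⁻¹ : ℝ) • lev (fun j => (EuclideanSpace.single i (1:ℂ) : AA k) j) ω = _
          congr 1
          unfold lev
          rw [Finset.sum_eq_single i, Finset.sum_eq_single ω]
          · have : ev ω (sF k ω) = 1 := Finsupp.single_eq_same
            rw [this]; simp
          · intro ω' _ hω
            have : ev ω (sF k ω') = 0 := Finsupp.single_eq_of_ne hω.symm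
            rw [this]; simp
          · intro h; exact absurd (mem_univ ω) h
          · intro j _ hj; simp [hj]
          · intro h; exact absurd (mem_univ i) h
        rw [h2]
        have h3 := map_smul ((io k).restrictScalars ℝ) ((cn (Fin (sz k)))⁻¹)
          (∑ ω, sg (ω i) • sF k ω)
        have h4 := map_sum ((io k).restrictScalars ℝ)
          (fun ω => sg (ω i) • sF k ω) Finset.univ
        have h5 : ∀ ω : Om k, ((io k).restrictScalars ℝ) (sg (ω i) • sF k ω) =
            sg (ω i) • ((io k).restrictScalars ℝ) (sF k ω) := fun ω =>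
          map_smul ((io k).restrictScalars ℝ) _ _
        simp_rw [h5] at h4
        rw [h4] at h3
        exact h3.symm
    rw [h1]
    exact quotSem_range _ _ _

end H601R3
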