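import Pool.Agent.H601R3.Limit

/-!
Approximable operators on a good space satisfy a 2-summing inequality.
-/

set_option autoImplicit false
set_option linter.unusedSectionVars false
set_option linter.unusedSimpArgs false

namespace H601R3
open Finset

section mult
variable {I : Type} [Fintype I] [DecidableEq I]

/-- Self-adjointness of Fourier multipliers. -/
lemma mult_adj {P : Type*} [AddCommGroup P] [Module ℂ P] (c : Finset I → ℝ)
    (a : (I → Bool) → ℂ) (p : (I → Bool) → P) :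
    ∑ ε, a ε • mult c p ε = ∑ ε, mult c a ε • p ε := by
  have h1 : ∀ ε, a ε • mult c p ε = ∑ S, ∑ δ, (((cn I)⁻¹ * c S * chi S ε * chi S δ : ℝ) : ℂ) • (a ε • p δ) := by
    intro ε
    unfold mult hat
    rw [Finset.smul_sum]
    refine Finset.sum_congr rfl fun S _ => ?_
    rw [Finset.smul_sum, Finset.smul_sum, Finset.smul_sum]
    refine Finset.sum_congr rfl fun δ _ => ?_
    simp only [← Complex.coe_smul, smul_smul]
    congr 1
    push_cast; ring
  have h2 : ∀ δ, mult c a δ • p δ = ∑ S, ∑ ε, (((cn I)⁻¹ * c S * chi S ε * chi S δ : ℝ) : ℂ) • (a ε • p δ) := by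
    intro δ
    unfold mult hat
    rw [Finset.sum_smul]
    refine Finset.sum_congr rfl fun S _ => ?_
    rw [Finset.smul_sum, Finset.smul_sum, Finset.sum_smul]
    refine Finset.sum_congr rfl fun ε _ => ?_
    simp only [← Complex.coe_smul, smul_smul, smul_eq_mul]
    congr 1
    push_cast; ring
  simp_rw [h1, h2]
  rw [Finset.sum_comm]
  rw [Finset.sum_comm (s := Finset.univ (α := I → Bool)) (t := Finset.univ (α := Finset I))]
  refine Finset.sum_congr rfl fun S _ => ?_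
  rw [Finset.sum_comm]

/-- The error multiplier. -/
noncomputable def cc (ρ : ℝ) (S : Finset I) : ℝ :=
  if Odd S.card ∧ 3 ≤ S.card then ρ ^ (S.card - 3) else 0

lemma abs_cc {ρ : ℝ} (h : |ρ| ≤ 1) (S : Finset I) : |cc ρ S| ≤ 1 := by
  unfold cc
  split_ifs
  · rw [abs_pow]; exact pow_le_one₀ (abs_nonneg _) h
  · simp

lemma lev_hat {E : Type*} [AddCommGroup E] [Module ℝ E] {ρ : ℝ} (hρ : ρ ≠ 0) (g : (I → Bool) → E) (ε : I → Bool) :
    lev (fun i => hat g {i}) ε =
      (2 * ρ)⁻¹ • (T ρ g ε - T (-ρ) g ε) - ρ ^ 2 • mult (cc ρ) g ε := by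
  have h : lev (fun i => hat g {i}) = (2 * ρ)⁻¹ • (T ρ g - T (-ρ) g) - ρ ^ 2 • mult (cc ρ) g := by
    refine ext_hat fun S => ?_
    rw [hat_sub, hat_smul, hat_sub, hat_smul, T_eq, T_eq, hat_mult, hat_mult, hat_mult]
    rw [← sub_smul, smul_smul, smul_smul, ← sub_smul]
    by_cases h1 : S.card = 1
    · obtain ⟨i, rfl⟩ := Finset.card_eq_one.1 h1
      rw [hat_lev_singleton]
      have : (2 * ρ)⁻¹ * (ρ ^ ({i} : Finset I).card - (-ρ) ^ ({i} : Finset I).card) -
          ρ ^ 2 * cc ρ {i} = 1 := by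
        unfold cc
        simp
        field_simp
        ring
      rw [this, one_smul]
    · rw [hat_lev_of_ne _ _ h1]
      have : (2 * ρ)⁻¹ * (ρ ^ S.card - (-ρ) ^ S.card) - ρ ^ 2 * cc ρ S = 0 := by
        unfold cc
        rcases Nat.even_or_odd S.card with he | ho
        · rw [he.neg_pow]
          have : ¬ (Odd S.card ∧ 3 ≤ S.card) := fun h => (Nat.not_odd_iff_even.2 he) h.1
          rw [if_neg this]; simp
        · have h3 : 3 ≤ S.card := by
            obtain ⟨m, hm⟩ := ho; omega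
          rw [if_pos ⟨ho, h3⟩, ho.neg_pow]
          obtain ⟨m, hm⟩ := Nat.exists_eq_add_of_le h3
          rw [hm]
          simp only [Nat.add_sub_cancel_left]
          field_simp
          ring
      rw [this, zero_smul]
  rw [h]; rfl

end mult

section summing
variable {P : Type} [NormedAddCommGroup P] [NormedSpace ℂ P]

/-- The 2-summing constant of `u` is at most `M`. -/
def Valid (u : P →L[ℂ] P) (M : ℝ) : Prop :=
  ∀ (n : ℕ) (x : Fin n → P), Up2 x → Real.sqrt (∑ i, ‖u (x i)‖ ^ 2) ≤ M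

lemma Valid.mono {u : P →L[ℂ] P} {M M' : ℝ} (h : Valid u M) (hM : M ≤ M') : Valid u M' :=
  fun n x hx => (h n x hx).trans hM

lemma Valid.nonneg {u : P →L[ℂ] P} {M : ℝ} (h : Valid u M) : 0 ≤ M := by
  have := h 0 (fun i => i.elim0) (fun a => by simp)
  simpa using this

lemma Valid.add {u v : P →L[ℂ] P} {M M' : ℝ} (h : Valid u M) (h' : Valid v M') :
    Valid (u + v) (M + M') := by
  intro n x hx
  have h1 : Real.sqrt (∑ i, ‖(u + v) (x i)‖ ^ 2) ≤ Real.sqrt (∑ i, (‖u (x i)‖ + ‖v (x i)‖) ^ 2) :=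
    sqrt_sum_mono (fun i => norm_nonneg _) fun i => norm_add_le _ _
  have h2 := sqrt_sum_add (fun i => ‖u (x i)‖) (fun i => ‖v (x i)‖)
  linarith [h n x hx, h' n x hx]

lemma valid_zero : Valid (0 : P →L[ℂ] P) 0 := by
  intro n x hx; simp

lemma Valid.fintype {u : P →L[ℂ] P} {M : ℝ} (h : Valid u M) {ι : Type} [Fintype ι] (x : ι → P)
    (hx : Up2 x) : Real.sqrt (∑ i, ‖u (x i)‖ ^ 2) ≤ M := by
  classical
  set e := Fintype.equivFin ι
  have h1 : Up2 (fun i => x (e.symm i)) := by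
    intro a
    have h2 := hx (fun j => a (e j))
    have h3 : ∑ i, a i • x (e.symm i) = ∑ j, a (e j) • x j := by
      refine (Fintype.sum_equiv e _ _ fun j => ?_).symm
      simp
    have h4 : ∑ i, ‖a i‖ ^ 2 = ∑ j, ‖a (e j)‖ ^ 2 := by
      refine (Fintype.sum_equiv e _ _ fun j => ?_).symm
      simp
    rw [h3, h4]; exact h2
  have h2 := h _ _ h1
  have h3 : ∑ i, ‖u (x (e.symm i))‖ ^ 2 = ∑ j, ‖u (x j)‖ ^ 2 := by
    refine (Fintype.sum_equiv e _ _ fun j => ?_).symm
    simp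
  rw [h3] at h2
  exact h2

/-- Rank one operators. -/
lemma valid_rank_one (φ : P →L[ℂ] ℂ) (z : P) : Valid (φ.smulRight z) (‖φ‖ * ‖z‖) := by
  intro n x hx
  have h1 : ∑ i, ‖(φ.smulRight z) (x i)‖ ^ 2 = ‖z‖ ^ 2 * ∑ i, ‖φ (x i)‖ ^ 2 := by
    rw [Finset.mul_sum]
    refine Finset.sum_congr rfl fun i _ => ?_
    rw [ContinuousLinearMap.smulRight_apply, norm_smul]; ring
  set s := ∑ i, ‖φ (x i)‖ ^ 2 with hs
  have hs0 : 0 ≤ s := Finset.sum_nonneg fun i _ => sq_nonneg _
  have h2 : s ≤ ‖φ‖ * Real.sqrt s := by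
    have h3 := hx (fun i => (starRingEnd ℂ) (φ (x i)))
    have h4 : ∑ i, ‖(starRingEnd ℂ) (φ (x i))‖ ^ 2 = s := by
      simp [hs]
    rw [h4] at h3
    have h5 : φ (∑ i, (starRingEnd ℂ) (φ (x i)) • x i) = (s : ℂ) := by
      rw [map_sum, hs]
      push_cast
      refine Finset.sum_congr rfl fun i _ => ?_
      rw [map_smul, smul_eq_mul, Complex.conj_mul']
    have h6 := φ.le_opNorm (∑ i, (starRingEnd ℂ) (φ (x i)) • x i)
    rw [h5, Complex.norm_real, Real.norm_of_nonneg hs0] at h6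
    refine h6.trans (mul_le_mul_of_nonneg_left ?_ (norm_nonneg _))
    exact Real.le_sqrt_of_sq_le h3
  have h3 : Real.sqrt s ≤ ‖φ‖ := by
    by_contra hh
    push Not at hh
    have h4 := Real.sqrt_nonneg s
    have h5 := Real.mul_self_sqrt hs0
    have h6 : 0 < Real.sqrt s := lt_of_le_of_lt (norm_nonneg φ) hh
    nlinarith
  rw [h1, Real.sqrt_mul (sq_nonneg _), Real.sqrt_sq (norm_nonneg _)]
  nlinarith [norm_nonneg z]

/-- Operators of finite rank. -/
lemma valid_finite_rank (u : P →L[ℂ] P) (hu : FiniteDimensional ℂ (LinearMap.range u.toLinearMap)) :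
    ∃ M, Valid u M := by
  classical
  set b := Module.finBasis ℂ (LinearMap.range u.toLinearMap) with hb
  set R := LinearMap.range u.toLinearMap with hR
  set u' : P →L[ℂ] R := u.codRestrict R (fun x => ⟨x, rfl⟩) with hu'
  set φ : Fin (Module.finrank ℂ R) → (P →L[ℂ] ℂ) := fun l =>
    (LinearMap.toContinuousLinearMap (b.coord l)) ∘L u' with hφ
  have h1 : u = ∑ l, (φ l).smulRight (b l : P) := by
    ext x
    rw [_root_.sum_apply]
    have h2 := b.sum_repr (u' x)
    have h3 := congrArg (fun y : R => (y : P)) h2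
    simp only [AddSubmonoidClass.coe_finsetSum, Submodule.coe_smul] at h3
    have h4 : ((u' x : R) : P) = u x := rfl
    rw [h4] at h3
    rw [← h3]
    rfl
  have key : ∀ s : Finset (Fin (Module.finrank ℂ R)),
      Valid (∑ l ∈ s, (φ l).smulRight (b l : P)) (∑ l ∈ s, ‖φ l‖ * ‖(b l : P)‖) := by
    intro s
    induction s using Finset.induction_on with
    | empty => simpa using valid_zero
    | insert a s ha ih =>
      rw [Finset.sum_insert ha, Finset.sum_insert ha]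
      exact (valid_rank_one _ _).add ih
  exact ⟨_, by rw [h1]; exact key Finset.univ⟩

/-- The self-improvement step. -/
lemma Valid.improve (hP : Good P) {u : P →L[ℂ] P} {M : ℝ} (h : Valid u M) :
    Valid u (2000000000 * ‖u‖ + M / 4) := by
  classical
  intro n x hx
  have hM := h.nonneg
  refine le_of_forall_pos_le_add fun δ' hδ' => ?_
  set δ : ℝ := δ' / ((n + 1) * (‖u‖ + 1)) with hδ
  have hu0 := norm_nonneg u
  have hδ0 : 0 < δ := by positivity
  obtain ⟨p, hp1, hp2⟩ := hP.avg n x hx δ hδ0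
  set ρ : ℝ := 1 / 2000 with hρ
  have hρ0 : ρ ≠ 0 := by rw [hρ]; norm_num
  have hρ1 : |ρ| ≤ 1 := by rw [hρ, abs_of_pos (by norm_num)]; norm_num
  have hρ2 : |-ρ| ≤ 1 := by rw [abs_neg]; exact hρ1
  set g : (Fin n → Bool) → P := fun ω => u (p ω) with hg
  have hgb : ∀ ω, ‖g ω‖ ≤ 1000 * ‖u‖ := by
    intro ω
    refine (u.le_opNorm _).trans ?_
    nlinarith [hp1 ω]
  -- passing to the averages
  have h1 : Real.sqrt (∑ i, ‖u (x i)‖ ^ 2) ≤ Real.sqrt (∑ i, ‖hat g {i}‖ ^ 2) + δ' := by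
    have h2 : Real.sqrt (∑ i, ‖u (x i)‖ ^ 2) ≤ Real.sqrt (∑ i, (‖hat g {i}‖ + ‖u‖ * δ) ^ 2) := by
      refine sqrt_sum_mono (fun i => norm_nonneg _) fun i => ?_
      have h3 : hat g {i} = u (hat p {i}) := hat_map (u.toLinearMap.restrictScalars ℝ) p {i}
      have h4 : u (x i) = hat g {i} + u (x i - hat p {i}) := by
        rw [h3, map_sub]; abel
      rw [h4]
      refine (norm_add_le _ _).trans (add_le_add_right ?_ _)
      exact (u.le_opNorm _).trans (mul_le_mul_of_nonneg_left (hp2 i) (norm_nonneg _))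
    have h3 := sqrt_sum_add (fun i => ‖hat g {i}‖) (fun _ : Fin n => ‖u‖ * δ)
    have h4 : Real.sqrt (∑ _i : Fin n, (‖u‖ * δ) ^ 2) ≤ n * (‖u‖ * δ) := by
      rw [Real.sqrt_le_left (by positivity)]
      simp only [Finset.sum_const, Finset.card_univ, Fintype.card_fin, nsmul_eq_mul]
      rcases Nat.eq_zero_or_pos n with h | h
      · subst h; simp
      · have : (1:ℝ) ≤ n := by exact_mod_cast h
        nlinarith [sq_nonneg (‖u‖ * δ), mul_nonneg (sub_nonneg.2 this) (sq_nonneg (‖u‖ * δ))]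
    have h5 : n * (‖u‖ * δ) ≤ δ' := by
      have h6 : n * (‖u‖ * δ) = δ' * ((n / (n + 1)) * (‖u‖ / (‖u‖ + 1))) := by
        rw [hδ]; field_simp
      have h7 : (n:ℝ) / (n + 1) ≤ 1 := by rw [div_le_one (by positivity)]; linarith
      have h8 : ‖u‖ / (‖u‖ + 1) ≤ 1 := by rw [div_le_one (by positivity)]; linarith
      have h9 : (n:ℝ) / (n + 1) * (‖u‖ / (‖u‖ + 1)) ≤ 1 :=
        mul_le_one₀ h7 (by positivity) h8
      rw [h6]; nlinarith
    linarith
  -- cotype
  have h2 := hP.cot n (fun i => hat g {i})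
  -- the three terms
  have h3 : (Ex fun ε => ‖lev (fun i => hat g {i}) ε‖) ≤
      1000 * (1000 * ‖u‖ + 1000 * ‖u‖) + ρ ^ 2 * (Ex fun ε => ‖mult (cc ρ) g ε‖) := by
    have hT : ∀ r : ℝ, |r| ≤ 1 → ∀ ε, ‖T r g ε‖ ≤ 1000 * ‖u‖ := by
      intro r hr ε
      refine (T_le (normSeminorm ℝ P) hr g ε).trans ?_
      unfold T
      simp only [smul_eq_mul]
      calc (cn (Fin n))⁻¹ * ∑ δ, ker r ε δ * normSeminorm ℝ P (g δ)
          ≤ (cn (Fin n))⁻¹ * ∑ δ, ker r ε δ * (1000 * ‖u‖) := by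
            refine mul_le_mul_of_nonneg_left (Finset.sum_le_sum fun δ _ => ?_)
              (inv_nonneg.2 cn_pos.le)
            exact mul_le_mul_of_nonneg_left (hgb δ) (ker_nonneg hr _ _)
        _ = 1000 * ‖u‖ := by
            rw [← Finset.sum_mul, ker_sum, inv_mul_cancel_left₀ cn_ne]
    have h4 : ∀ ε, ‖lev (fun i => hat g {i}) ε‖ ≤
        1000 * (1000 * ‖u‖ + 1000 * ‖u‖) + ρ ^ 2 * ‖mult (cc ρ) g ε‖ := by
      intro ε
      rw [lev_hat hρ0]
      refine (norm_sub_le _ _).trans ?_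
      rw [norm_smul, norm_smul, Real.norm_of_nonneg (by rw [hρ]; norm_num),
        Real.norm_of_nonneg (sq_nonneg _)]
      have h5 := norm_sub_le (T ρ g ε) (T (-ρ) g ε)
      have h6 : (2 * ρ)⁻¹ = 1000 := by rw [hρ]; norm_num
      rw [h6]
      linarith [hT ρ hρ1 ε, hT (-ρ) hρ2 ε]
    refine (Ex_mono h4).trans (le_of_eq ?_)
    rw [Ex_add, Ex_const, Ex_mul_left]
  -- the Hilbertian family
  have h4 : (Ex fun ε => ‖mult (cc ρ) g ε‖) ≤ 1000 * M := by
    have hc : 0 < Real.sqrt (cn (Fin n)) := Real.sqrt_pos.2 cn_pos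
    have hcs : Real.sqrt (cn (Fin n)) ^ 2 = cn (Fin n) := Real.sq_sqrt cn_pos.le
    set r : ℝ := (1000 * Real.sqrt (cn (Fin n)))⁻¹ with hr
    have hr0 : 0 < r := by rw [hr]; positivity
    have hup : Up2 (fun ε => (r : ℂ) • mult (cc ρ) p ε) := by
      intro a
      have h5 : ∑ ε, a ε • (r : ℂ) • mult (cc ρ) p ε = (r : ℂ) • ∑ ε, mult (cc ρ) a ε • p ε := by
        rw [← mult_adj, Finset.smul_sum]
        exact Finset.sum_congr rfl fun ε _ => smul_comm _ _ _
      have h6 : ‖∑ ε, mult (cc ρ) a ε • p ε‖ ≤ ∑ ε, ‖mult (cc ρ) a ε‖ * 1000 := by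
        refine (norm_sum_le _ _).trans (Finset.sum_le_sum fun ε _ => ?_)
        rw [norm_smul]
        exact mul_le_mul_of_nonneg_left (hp1 ε) (norm_nonneg _)
      have h7 : (∑ ε, ‖mult (cc ρ) a ε‖) ^ 2 ≤ cn (Fin n) * ∑ ε, ‖mult (cc ρ) a ε‖ ^ 2 := by
        have h := sq_sum_le_card_mul_sum_sq (s := (Finset.univ : Finset (Fin n → Bool)))
          (f := fun ε => ‖mult (cc ρ) a ε‖)
        have hc : ((Finset.univ : Finset (Fin n → Bool)).card : ℝ) = cn (Fin n) := by
          simp [cn]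
        rwa [hc] at h
      have h8 : ∑ ε, ‖mult (cc ρ) a ε‖ ^ 2 ≤ ∑ ε, ‖a ε‖ ^ 2 := by
        let _ : InnerProductSpace ℝ ℂ := InnerProductSpace.complexToReal
        exact mult_norm_le (abs_cc hρ1) a
      rw [h5, norm_smul, Complex.norm_real, Real.norm_of_nonneg hr0.le, mul_pow]
      have h9 : ‖∑ ε, mult (cc ρ) a ε • p ε‖ ^ 2 ≤ 1000 ^ 2 * (∑ ε, ‖mult (cc ρ) a ε‖) ^ 2 := by
        rw [← Finset.sum_mul] at h6
        calc _ ≤ ((∑ ε, ‖mult (cc ρ) a ε‖) * 1000) ^ 2 := pow_le_pow_left₀ (norm_nonneg _) h6 2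
          _ = _ := by ring
      calc r ^ 2 * ‖∑ ε, mult (cc ρ) a ε • p ε‖ ^ 2
          ≤ r ^ 2 * (1000 ^ 2 * (cn (Fin n) * ∑ ε, ‖a ε‖ ^ 2)) := by
            refine mul_le_mul_of_nonneg_left (h9.trans ?_) (sq_nonneg _)
            refine mul_le_mul_of_nonneg_left (h7.trans ?_) (by norm_num)
            exact mul_le_mul_of_nonneg_left h8 cn_pos.le
        _ = (r ^ 2 * (1000 ^ 2 * cn (Fin n))) * ∑ ε, ‖a ε‖ ^ 2 := by ring
        _ = ∑ ε, ‖a ε‖ ^ 2 := by
            have : r ^ 2 * (1000 ^ 2 * cn (Fin n)) = 1 := by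
              rw [hr, inv_pow, mul_pow, hcs]
              have := cn_ne (I := Fin n)
              field_simp
            rw [this, one_mul]
    have h5 := h.fintype _ hup
    have h6 : ∀ ε, ‖u ((r : ℂ) • mult (cc ρ) p ε)‖ = r * ‖mult (cc ρ) g ε‖ := by
      intro ε
      have h7 : mult (cc ρ) g ε = u (mult (cc ρ) p ε) :=
        mult_map (u.toLinearMap.restrictScalars ℝ) (cc ρ) p ε
      rw [map_smul, norm_smul, Complex.norm_real, Real.norm_of_nonneg hr0.le, h7]
    simp_rw [h6] at h5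
    have h7 := Ex_le_sqrt (fun ε => ‖mult (cc ρ) g ε‖)
    have h8 : Real.sqrt (∑ ε, (r * ‖mult (cc ρ) g ε‖) ^ 2) =
        (1000 : ℝ)⁻¹ * Real.sqrt (Ex fun ε => ‖mult (cc ρ) g ε‖ ^ 2) := by
      have : ∑ ε, (r * ‖mult (cc ρ) g ε‖) ^ 2 =
          (1000 : ℝ)⁻¹ ^ 2 * (Ex fun ε => ‖mult (cc ρ) g ε‖ ^ 2) := by
        unfold Ex
        simp_rw [mul_pow]
        rw [← Finset.mul_sum, ← mul_assoc]
        congr 1
        rw [hr, inv_pow, mul_pow, hcs, mul_inv, inv_pow]
      rw [this, Real.sqrt_mul (sq_nonneg _), Real.sqrt_sq (by norm_num)]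
    rw [h8] at h5
    linarith
  have h5 : ρ ^ 2 = 1 / 4000000 := by rw [hρ]; norm_num
  rw [h5] at h3
  simp only at h2
  linarith

/-- The improved constant. -/
lemma Valid.final (hP : Good P) {u : P →L[ℂ] P} {M : ℝ} (h : Valid u M) :
    Valid u (4000000000 * ‖u‖) := by
  have hM := h.nonneg
  have hu0 := norm_nonneg u
  have key : ∀ j : ℕ, Valid u (4000000000 * ‖u‖ + M / 2 ^ j) := by
    intro j
    induction j with
    | zero => exact h.mono (by rw [pow_zero, div_one]; linarith)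
    | succ j ih =>
      refine (ih.improve hP).mono ?_
      have : 0 ≤ M / 2 ^ j := by positivity
      rw [pow_succ, ← div_div]
      linarith
  intro n x hx
  refine le_of_forall_pos_le_add fun δ hδ => ?_
  obtain ⟨j, hj⟩ := pow_unbounded_of_one_lt (M / δ) (one_lt_two)
  refine (key j n x hx).trans ?_
  have : M / 2 ^ j ≤ δ := by
    rw [div_le_iff₀ (by positivity)]
    rw [div_lt_iff₀ hδ] at hj
    linarith
  linarith

/-- Approximable operators: the norm closure of the finite rank operators. -/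
def Apx (P : Type) [NormedAddCommGroup P] [NormedSpace ℂ P] : Set (P →L[ℂ] P) :=
  closure {u | FiniteDimensional ℂ (LinearMap.range u.toLinearMap)}

theorem summing (hP : Good P) {u : P →L[ℂ] P} (hu : u ∈ Apx P) : Valid u (4000000000 * ‖u‖) := by
  intro n x hx
  refine le_of_forall_pos_le_add fun δ' hδ' => ?_
  set X := ∑ i, ‖x i‖ with hX
  have hX0 : 0 ≤ X := Finset.sum_nonneg fun i _ => norm_nonneg _
  set δ : ℝ := δ' / (4000000001 * (X + 1)) with hδ
  have hδ0 : 0 < δ := by positivity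
  obtain ⟨v, hv, hd⟩ := Metric.mem_closure_iff.1 hu δ hδ0
  rw [dist_eq_norm] at hd
  obtain ⟨M, hM⟩ := valid_finite_rank v hv
  have h1 := hM.final hP n x hx
  have h2 : Real.sqrt (∑ i, ‖u (x i)‖ ^ 2) ≤ Real.sqrt (∑ i, (‖v (x i)‖ + δ * ‖x i‖) ^ 2) := by
    refine sqrt_sum_mono (fun i => norm_nonneg _) fun i => ?_
    have h3 : u (x i) = v (x i) + (u - v) (x i) := by simp
    rw [h3]
    refine (norm_add_le _ _).trans (add_le_add_right ?_ _)
    exact ((u - v).le_opNorm _).trans (mul_le_mul_of_nonneg_right hd.le (norm_nonneg _))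
  have h3 := sqrt_sum_add (fun i => ‖v (x i)‖) (fun i => δ * ‖x i‖)
  have h4 : Real.sqrt (∑ i, (δ * ‖x i‖) ^ 2) ≤ δ * X := by
    rw [Real.sqrt_le_left (by positivity)]
    have : ∑ i, (δ * ‖x i‖) ^ 2 ≤ (∑ i, δ * ‖x i‖) ^ 2 :=
      Finset.sum_sq_le_sq_sum_of_nonneg fun i _ => by positivity
    rw [← Finset.mul_sum] at this
    exact this
  have h5 : ‖v‖ ≤ ‖u‖ + δ := by
    have := norm_sub_le u (u - v)
    simp only [sub_sub_cancel] at this
    linarith
  have h6 : 4000000000 * δ + δ * X ≤ δ' := by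
    have h7 : 4000000001 * (X + 1) * δ = δ' := by rw [hδ]; field_simp
    nlinarith
  linarith

end summing

end H601R3
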